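import Pool.Agent.H159TP.Data

/-!
The colouring.
-/

set_option autoImplicit false

namespace Pool.Agent.H159TP

open Finset Classical

/-- vertices of `R` with an unused head as an out-neighbour whose in-neighbourhood is concentrated
on the selected paths -/
noncomputable def CI {V : Type} [Fintype V] {K : ℕ} (adj : V → V → Prop) (Hd R : Finset V)
    (F : Fin K → Finset V) (I : Finset (Fin K)) : Finset V :=
  univ.filter (fun v => v ∈ R ∧ Cr adj Hd F v ∧
    (inn adj v).card < 2 * (inn adj v ∩ I.biUnion F).card)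

/-- unused heads -/
noncomputable def UU {V : Type} {K : ℕ} (Hd : Finset V) (F : Fin K → Finset V) : Finset V :=
  Hd.filter (fun u => ∀ j, u ∉ F j)

/-- the blocked vertices outside the selected paths -/
noncomputable def GG {V : Type} [Fintype V] {K : ℕ} (adj : V → V → Prop) (Z Y Hd Tl R : Finset V)
    (F : Fin K → Finset V) (I : Finset (Fin K)) : Finset V :=
  Z ∪ Y ∪ (CI adj Hd R F I ∪ CI (fun u v => adj v u) Tl R F I)

section
variable {V : Type} [Fintype V] {adj : V → V → Prop} {k q t N K : ℕ}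
    {X0 Z Hd Tl E1 E2 R SA Y : Finset V} {AA BB YI YO : V → Finset V} {F : Fin K → Finset V}
    {I : Finset (Fin K)} {a b : Fin K → V} {D₁ D₂ : ℕ}

theorem GG_op : GG (fun u v => adj v u) Z Y Tl Hd R F I = GG adj Z Y Hd Tl R F I := by
  unfold GG
  rw [union_comm (CI (fun u v => adj v u) Tl R F I)]

variable (h : Data adj k q t N K X0 Z Hd Tl E1 E2 R SA Y AA BB YI YO F I a b D₁ D₂)
include h

theorem Data.q0 : 0 < q := by
  rw [h.qdef]
  exact Nat.mul_pos h.k0 h.t0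

theorem Data.N6 : 6 * q < N := by
  have h1 := h.num
  have h2 := h.qK
  have h3 := h.q0
  omega

omit h in
theorem mem_CI (v : V) : v ∈ CI adj Hd R F I ↔ v ∈ R ∧ Cr adj Hd F v ∧
    (inn adj v).card < 2 * (inn adj v ∩ I.biUnion F).card := by
  simp [CI]

theorem Data.CIc : (CI adj Hd R F I).card ≤ K := by
  refine (card_le_card ?_).trans h.hI.LI
  intro v hv
  obtain ⟨h1, h2, h3⟩ := (mem_CI v).1 hv
  exact mem_filter.2 ⟨mem_univ _, h1, h.hI.conc_on_path h.N6 h1 h2 h3, h2⟩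

theorem Data.GGc : 16 * ((GG adj Z Y Hd Tl R F I).card + 2 * q) ≤ N := by
  have h1 := h.CIc
  have h2 := h.op.CIc
  have h3 := h.num
  have h4 := h.qK
  have h5 := h.Yc
  have h6 : Z.card ≤ k * Z.card := Nat.le_mul_of_pos_left _ h.k0
  have h7 : (GG adj Z Y Hd Tl R F I).card ≤ Z.card + Y.card + K + K := by
    unfold GG
    refine (card_union_le _ _).trans ?_
    have h8 := card_union_le Z Y
    have h9 := card_union_le (CI adj Hd R F I) (CI (fun u v => adj v u) Tl R F I)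
    omega
  omega

theorem Data.YSA {v : V} (hv : v ∈ Y) : v ∈ SA := by
  rcases (h.Ydef v).1 hv with ⟨z, hz, hv⟩ | ⟨z, hz, hv⟩
  · exact (mem_inter.1 (h.YIs z hz hv)).2
  · exact (mem_inter.1 (h.YOs z hz hv)).2

theorem Data.SAZ {v : V} (hv : v ∈ SA) : v ∉ Z := ((h.SAdef v).1 hv).1

theorem Data.cr_or {v : V} (hv : v ∉ Z) (hvS : v ∉ SA) :
    Cr adj Hd F v ∨ Cr (fun u v => adj v u) Tl F v := by
  by_cases h1 : K < (Hd.filter (fun u => adj v u)).card
  · exact Or.inl (h.hI.cr_of h1)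
  · right
    apply h.hO.cr_of
    by_contra h2
    apply hvS
    rw [h.SAdef]
    exact ⟨hv, not_lt.1 h1, not_lt.1 h2⟩

theorem Data.size1 (z : V) (hz : (inn adj z ∩ SA).card < 2 * (k * Z.card)) :
    N ≤ 4 * ((inn adj z) \ (GG adj Z Y Hd Tl R F I ∪ I.biUnion F)).card := by
  set L1 := univ.filter (fun v => v ∈ R ∧ (∃ i, v ∈ F i) ∧ Cr adj Hd F v) with hL1
  set L2 := univ.filter (fun v => v ∈ R ∧ (∃ i, v ∈ F i) ∧ Cr (fun u v => adj v u) Tl F v) with hL2
  have h1 : L1.card ≤ K := h.hI.LI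
  have h2 : L2.card ≤ K := h.hO.LI
  have hsub : inn adj z ⊆ (((inn adj z) \ (GG adj Z Y Hd Tl R F I ∪ I.biUnion F)) ∪
      (inn adj z ∩ SA)) ∪ Z ∪ (CI adj Hd R F I) ∪ (CI (fun u v => adj v u) Tl R F I) ∪ L1 ∪ L2 := by
    intro y hy
    by_cases hyZ : y ∈ Z
    · simp [hyZ]
    · by_cases hyS : y ∈ SA
      · simp [hyS, hy]
      · have hyY : y ∉ Y := fun hh => hyS (h.YSA hh)
        by_cases hy1 : y ∈ CI adj Hd R F I
        · simp [hy1]
        · by_cases hy2 : y ∈ CI (fun u v => adj v u) Tl R F I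
          · simp [hy2]
          · by_cases hyp : y ∈ I.biUnion F
            · obtain ⟨i, _, hyi⟩ := mem_biUnion.1 hyp
              have hyR : y ∈ R := (h.Rdef y).2 ⟨hyZ, hyY⟩
              rcases h.cr_or hyZ hyS with h3 | h3
              · have : y ∈ L1 := mem_filter.2 ⟨mem_univ _, hyR, ⟨i, hyi⟩, h3⟩
                simp only [mem_union]
                tauto
              · have : y ∈ L2 := mem_filter.2 ⟨mem_univ _, hyR, ⟨i, hyi⟩, h3⟩
                simp only [mem_union]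
                tauto
            · have : y ∈ (inn adj z) \ (GG adj Z Y Hd Tl R F I ∪ I.biUnion F) := by
                unfold GG
                simp only [mem_sdiff, mem_union, not_or]
                exact ⟨hy, ⟨⟨hyZ, hyY⟩, hy1, hy2⟩, hyp⟩
              simp only [mem_union]
              tauto
  have h3 := card_le_card hsub
  have h4 := card_union_le ((((inn adj z) \ (GG adj Z Y Hd Tl R F I ∪ I.biUnion F)) ∪
      (inn adj z ∩ SA)) ∪ Z ∪ (CI adj Hd R F I) ∪ (CI (fun u v => adj v u) Tl R F I) ∪ L1) L2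
  have h5 := card_union_le ((((inn adj z) \ (GG adj Z Y Hd Tl R F I ∪ I.biUnion F)) ∪
      (inn adj z ∩ SA)) ∪ Z ∪ (CI adj Hd R F I) ∪ (CI (fun u v => adj v u) Tl R F I)) L1
  have h6 := card_union_le ((((inn adj z) \ (GG adj Z Y Hd Tl R F I ∪ I.biUnion F)) ∪
      (inn adj z ∩ SA)) ∪ Z ∪ (CI adj Hd R F I)) (CI (fun u v => adj v u) Tl R F I)
  have h7 := card_union_le ((((inn adj z) \ (GG adj Z Y Hd Tl R F I ∪ I.biUnion F)) ∪
      (inn adj z ∩ SA)) ∪ Z) (CI adj Hd R F I)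
  have h8 := card_union_le (((inn adj z) \ (GG adj Z Y Hd Tl R F I ∪ I.biUnion F)) ∪
      (inn adj z ∩ SA)) Z
  have h9 := card_union_le ((inn adj z) \ (GG adj Z Y Hd Tl R F I ∪ I.biUnion F)) (inn adj z ∩ SA)
  have h10 := h.CIc
  have h11 := h.op.CIc
  have h12 := h.num
  have h13 : Z.card ≤ k * Z.card := Nat.le_mul_of_pos_left _ h.k0
  have h14 := (h.deg z).1
  omega

/-- the levels for incoming arcs -/
theorem Data.inok (g : Fin K → Fin t) (φ : V → Fin t)
    (p1 : ∀ j ∈ I, ∀ v ∈ F j, φ v = g j) (p2 : ∀ z ∈ Z, ∀ y ∈ YI z, φ y = φ z)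
    (p3 : ∀ v ∈ CI adj Hd R F I, v ∉ I.biUnion F → ∃ j ∈ I, φ v = g j ∧
      k ≤ ((F j).filter (fun y => adj y v ∧ y ∉ Z ∧ y ∉ E1)).card)
    (p4 : ∀ z ∈ Z, (inn adj z ∩ SA).card < 2 * (k * Z.card) →
      ∃ S : Finset V, k ≤ S.card ∧ ∀ y ∈ S, adj y z ∧ y ∉ Z ∧ φ y = φ z)
    (p5 : ∀ u ∈ UU Hd F, ∃ S : Finset V, k ≤ S.card ∧
      ∀ y ∈ S, adj y u ∧ y ∉ Z ∧ y ∉ E1 ∧ φ y = φ u)
    (p6 : ∀ v ∈ E1, v ∈ R → ¬ (inn adj v).card < 2 * (inn adj v ∩ I.biUnion F).card →
      ∃ S : Finset V, k ≤ S.card ∧ ∀ y ∈ S, adj y v ∧ y ∉ Z ∧ y ∉ E1 ∧ φ y = φ v)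
    (p7 : ∀ i, K + k ≤ ((UU Hd F).filter (fun u => φ u = i)).card) :
    InOK adj Z (UU Hd F) E1 φ k := by
  refine ⟨?_, p5, ?_⟩
  · intro v hv _
    rcases h.YIc v hv with h1 | h1
    · refine ⟨YI v, h1.ge, fun y hy => ?_⟩
      have h2 := mem_inter.1 (h.YIs v hv hy)
      exact ⟨(mem_inn _ _).1 h2.1, h.SAZ h2.2, p2 v hv y hy⟩
    · exact p4 v hv h1
  · intro v hvZ hvE
    by_cases hk : k ≤ (univ.filter (fun y => adj y v ∧ y ∈ UU Hd F ∧ φ y = φ v)).card
    · exact Or.inr ⟨_, hk, fun y hy => (mem_filter.1 hy).2⟩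
    · left
      have h1 : (((UU Hd F).filter (fun u => φ u = φ v)).filter (fun u => adj u v)).card < k := by
        refine lt_of_le_of_lt (card_le_card fun y hy => ?_) (not_le.1 hk)
        simp only [mem_filter, mem_univ, true_and] at hy ⊢
        tauto
      obtain ⟨hcr, hK⟩ := h.hI.crit hvZ ((UU Hd F).filter (fun u => φ u = φ v)) (by
        intro u hu
        have := (mem_filter.1 hu).1
        unfold UU at this
        exact mem_filter.1 this) (p7 (φ v)) h1
      have hvY : v ∉ Y := by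
        intro hvY
        have := ((h.SAdef v).1 (h.YSA hvY)).2.1
        omega
      have hvR : v ∈ R := (h.Rdef v).2 ⟨hvZ, hvY⟩
      by_cases hcon : (inn adj v).card < 2 * (inn adj v ∩ I.biUnion F).card
      · have hgood : ∀ j ∈ I, φ v = g j →
            k ≤ ((F j).filter (fun y => adj y v ∧ y ∉ Z ∧ y ∉ E1)).card →
            ∃ S : Finset V, k ≤ S.card ∧ ∀ y ∈ S, adj y v ∧ y ∉ Z ∧ y ∉ E1 ∧ φ y = φ v := by
          intro j hj hφ hkj
          refine ⟨_, hkj, fun y hy => ?_⟩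
          obtain ⟨hyF, hy1, hy2, hy3⟩ := mem_filter.1 hy
          exact ⟨hy1, hy2, hy3, by rw [hφ, p1 j hj y hyF]⟩
        by_cases hvp : v ∈ I.biUnion F
        · obtain ⟨i, hi, hvi⟩ := mem_biUnion.1 hvp
          exact hgood i hi (p1 i hi v hvi)
            ((h.hI.conc_good k h.k0 h.q0 h.num2 hvR hcr hcon).1 i hi hvi)
        · obtain ⟨j, hj, h2, h3⟩ := p3 v ((mem_CI v).2 ⟨hvR, hcr, hcon⟩) hvp
          exact hgood j hj h2 h3
      · exact p6 v hvE hvR hcon

end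

end Pool.Agent.H159TP
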