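import Mathlib

/-!
Two combinatorial lemmas: a weighted form of Hall's theorem, independent sets in sparse digraphs.
-/

set_option autoImplicit false

namespace Pool.Agent.H159TP

open Finset Classical

/-- Disjoint sets of `k` elements for a family of demands. -/
theorem hall_demands {Δ V : Type} [Fintype Δ] (C : Δ → Finset V) (f : Δ → ℕ) (k : ℕ)
    (h : ∀ δ, k * (univ.filter (fun δ' => f δ' ≤ f δ)).card ≤ (C δ).card) :
    ∃ R : Δ → Finset V, (∀ δ, R δ ⊆ C δ ∧ (R δ).card = k) ∧
      ∀ δ δ', δ ≠ δ' → Disjoint (R δ) (R δ') := by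
  have key : ∀ s : Finset (Δ × Fin k), s.card ≤ (s.biUnion (fun x => C x.1)).card := by
    intro s
    rcases s.eq_empty_or_nonempty with rfl | hs
    · simp
    · obtain ⟨x, hx, hmax⟩ := exists_max_image s (fun x => f x.1) hs
      have h1 : s ⊆ (univ.filter (fun δ' => f δ' ≤ f x.1)) ×ˢ (univ : Finset (Fin k)) := by
        intro y hy
        rw [mem_product, mem_filter]
        exact ⟨⟨mem_univ _, hmax y hy⟩, mem_univ _⟩
      have h2 := card_le_card h1
      rw [card_product, card_univ, Fintype.card_fin, mul_comm] at h2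
      exact h2.trans ((h x.1).trans (card_le_card (subset_biUnion_of_mem (fun x => C x.1) hx)))
  obtain ⟨g, hg1, hg2⟩ := (all_card_le_biUnion_card_iff_exists_injective _).1 key
  refine ⟨fun δ => univ.image (fun i : Fin k => g (δ, i)), fun δ => ⟨?_, ?_⟩, ?_⟩
  · intro v hv
    obtain ⟨i, _, rfl⟩ := mem_image.1 hv
    exact hg2 (δ, i)
  · rw [card_image_of_injective, card_univ, Fintype.card_fin]
    intro i j hij
    have := hg1 hij
    simpa using this
  · intro δ δ' hne
    rw [disjoint_left]
    intro v hv hv'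
    obtain ⟨i, _, rfl⟩ := mem_image.1 hv
    obtain ⟨j, _, hj⟩ := mem_image.1 hv'
    have := hg1 hj
    simp only [Prod.mk.injEq] at this
    exact hne this.1.symm

/-- A digraph of small out-degrees contains a large independent set. -/
theorem exists_indep {ι : Type} (D : ℕ) (r : ι → ι → Prop) (m : ℕ) (S : Finset ι)
    (h : ∀ i ∈ S, (S.filter (r i)).card ≤ D) (hS : m * (2 * D + 1) ≤ S.card) :
    ∃ I ⊆ S, I.card = m ∧ ∀ i ∈ I, ∀ j ∈ I, i ≠ j → ¬ r i j := by
  induction m generalizing S with
  | zero => exact ⟨∅, empty_subset _, rfl, by simp⟩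
  | succ m ih =>
    have hpos : 0 < S.card := by
      have : 0 < (m + 1) * (2 * D + 1) := by positivity
      omega
    obtain ⟨i₀, hi₀, h1⟩ : ∃ i₀ ∈ S, (S.filter (fun j => r j i₀)).card ≤ D := by
      by_contra hne
      push Not at hne
      have h2 : ∑ i ∈ S, (D + 1) ≤ ∑ i ∈ S, (S.filter (fun j => r j i)).card :=
        sum_le_sum fun i hi => hne i hi
      have h3 : ∑ i ∈ S, (S.filter (fun j => r j i)).card = ∑ i ∈ S, (S.filter (r i)).card := by
        simp only [card_filter]
        rw [sum_comm]
      have h4 : ∑ i ∈ S, (S.filter (r i)).card ≤ ∑ i ∈ S, D := sum_le_sum fun i hi => h i hi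
      rw [h3] at h2
      have h5 := h2.trans h4
      rw [sum_const, sum_const, smul_eq_mul, smul_eq_mul] at h5
      have h6 : S.card * (D + 1) = S.card * D + S.card := by ring
      omega
    set S' := S \ (insert i₀ (S.filter (r i₀) ∪ S.filter (fun j => r j i₀))) with hS'
    have hsub : S' ⊆ S := sdiff_subset
    have hcard : m * (2 * D + 1) ≤ S'.card := by
      have h2 := le_card_sdiff (insert i₀ (S.filter (r i₀) ∪ S.filter (fun j => r j i₀))) S
      have h3 := card_insert_le i₀ (S.filter (r i₀) ∪ S.filter (fun j => r j i₀))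
      have h4 := card_union_le (S.filter (r i₀)) (S.filter (fun j => r j i₀))
      have h5 := h i₀ hi₀
      have h6 : (m + 1) * (2 * D + 1) = m * (2 * D + 1) + (2 * D + 1) := by ring
      rw [← hS'] at h2
      omega
    obtain ⟨I, hI, h7, h8⟩ := ih S' (fun i hi => (card_le_card (filter_subset_filter _ hsub)).trans
      (h i (hsub hi))) hcard
    have hi₀I : i₀ ∉ I := fun hh => by
      have := hI hh
      rw [hS', mem_sdiff] at this
      exact this.2 (mem_insert_self _ _)
    have hout : ∀ j ∈ I, ¬ r i₀ j ∧ ¬ r j i₀ := by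
      intro j hj
      have := hI hj
      rw [hS', mem_sdiff, mem_insert, mem_union, mem_filter, mem_filter] at this
      refine ⟨fun hr => this.2 (Or.inr (Or.inl ⟨this.1, hr⟩)),
        fun hr => this.2 (Or.inr (Or.inr ⟨this.1, hr⟩))⟩
    refine ⟨insert i₀ I, insert_subset hi₀ (hI.trans hsub), by
      rw [card_insert_of_notMem hi₀I, h7], ?_⟩
    intro i hi j hj hne
    rcases mem_insert.1 hi with hi' | hi'
    · rcases mem_insert.1 hj with hj' | hj'
      · exact absurd (hi'.trans hj'.symm) hne
      · rw [hi']; exact (hout j hj').1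
    · rcases mem_insert.1 hj with hj' | hj'
      · rw [hj']; exact (hout i hi').2
      · exact h8 i hi' j hj' hne

end Pool.Agent.H159TP
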