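import Pool.Agent.H159TP.Stage2

/-!
All the data before the colouring.
-/

set_option autoImplicit false

namespace Pool.Agent.H159TP

open Finset Classical

/-- everything needed for the colouring -/
structure Data {V : Type} [Fintype V] (adj : V → V → Prop) (k q t N K : ℕ)
    (X0 Z Hd Tl E1 E2 R SA Y : Finset V) (AA BB YI YO : V → Finset V) (F : Fin K → Finset V)
    (I : Finset (Fin K)) (a b : Fin K → V) (D₁ D₂ : ℕ) : Prop where
  core : Core adj X0 Z Hd Tl E1 E2 AA BB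
  hI : Half adj Z Hd R E1 F I q N D₁
  hO : Half (fun u v => adj v u) Z Tl R E2 F I q N D₂
  Rdef : ∀ v, v ∈ R ↔ v ∉ Z ∧ v ∉ Y
  Ydef : ∀ v, v ∈ Y ↔ (∃ z ∈ Z, v ∈ YI z) ∨ (∃ z ∈ Z, v ∈ YO z)
  SAdef : ∀ v, v ∈ SA ↔ v ∉ Z ∧ (Hd.filter (fun u => adj v u)).card ≤ K ∧
    (Tl.filter (fun w => adj w v)).card ≤ K
  YIs : ∀ z ∈ Z, YI z ⊆ inn adj z ∩ SA
  YOs : ∀ z ∈ Z, YO z ⊆ out adj z ∩ SA
  YIc : ∀ z ∈ Z, (YI z).card = k ∨ (inn adj z ∩ SA).card < 2 * (k * Z.card)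
  YOc : ∀ z ∈ Z, (YO z).card = k ∨ (out adj z ∩ SA).card < 2 * (k * Z.card)
  YId : ∀ z z', z ≠ z' → Disjoint (YI z) (YI z')
  YOd : ∀ z z', z ≠ z' → Disjoint (YO z) (YO z')
  YIO : ∀ z z', Disjoint (YI z) (YO z')
  Yc : Y.card ≤ 2 * (k * Z.card)
  ends : ∀ j, a j ∈ Hd ∧ b j ∈ Tl ∧ a j ∈ F j ∧ b j ∈ F j ∧ (∀ v ∈ F j, v ∈ Hd → v = a j) ∧
    (∀ v ∈ F j, v ∈ Tl → v = b j) ∧ (∀ v ∈ F j, v ∈ R ∨ v = a j ∨ v = b j) ∧
    Relation.ReflTransGen (fun x y => adj x y ∧ x ∈ F j ∧ y ∈ F j) (b j) (a j)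
  nb : ∀ v ∈ R, ∀ i, v ∈ F i → Cr adj Hd F v →
    (inn adj v).card < 2 * (inn adj v ∩ I.biUnion F).card → ¬ Cr (fun u v => adj v u) Tl F v
  nb2 : ∀ v ∈ R, ∀ i, v ∈ F i → Cr (fun u v => adj v u) Tl F v →
    (out adj v).card < 2 * (out adj v ∩ I.biUnion F).card → ¬ Cr adj Hd F v
  TH : Disjoint Tl Hd
  Hdc : K + (K + k) * t ≤ Hd.card
  Tlc : K + (K + k) * t ≤ Tl.card
  deg : ∀ v, N ≤ (inn adj v).card ∧ N ≤ (out adj v).card
  num : 16 * (5 * (k * Z.card) + 8 * K) ≤ N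
  qK : q ≤ K
  num2 : 8 * (q * (k + 2)) ≤ N
  qdef : q = k * t
  k0 : 0 < k
  t0 : 0 < t

theorem stage2 {V : Type} [Fintype V] {adj : V → V → Prop} (h : IsTournament adj)
    (X0 : Finset V) (k t q N K M c : ℕ) (hk : 0 < k) (ht : 0 < t) (hqd : q = k * t)
    (hX0 : X0.card = t) (hstr : KStrong adj N univ)
    (n1 : q + q * (8 * q) + q * (16 * q + 1) ≤ K) (n2 : K + (K + k) * t ≤ M)
    (n3 : 16 * (q * M) ≤ 2 ^ c)
    (n4 : 16 * (5 * (k * (t + 2 * M + 2 * (M * (c + 1)))) + 8 * K) ≤ N)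
    (n5 : 8 * (q * (k + 2)) ≤ N) :
    ∃ (Z Hd Tl E1 E2 R SA Y : Finset V) (AA BB YI YO : V → Finset V) (F : Fin K → Finset V)
      (I : Finset (Fin K)) (a b : Fin K → V) (D₁ D₂ : ℕ),
      Data adj k q t N K X0 Z Hd Tl E1 E2 R SA Y AA BB YI YO F I a b D₁ D₂ := by
  have hq : 0 < q := hqd ▸ Nat.mul_pos hk ht
  have hqK : q ≤ K := by
    refine le_trans ?_ n1
    have : 0 ≤ q * (8 * q) + q * (16 * q + 1) := Nat.zero_le _
    omega
  have hK : 0 < K := by omega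
  have hM : 0 < M := by omega
  have hKM : K ≤ M := by omega
  have hN : ∀ v, N ≤ (inn adj v).card := deg_of_kstrong h.irrefl hstr
  have hN' : ∀ v, N ≤ (out adj v).card := deg_of_kstrong (adj := fun u v => adj v u) h.irrefl
    hstr.op
  have hz0 : t + 2 * M + 2 * (M * (c + 1)) ≤ k * (t + 2 * M + 2 * (M * (c + 1))) :=
    Nat.le_mul_of_pos_left _ hk
  have hVc : N + 1 ≤ Fintype.card V := by
    have := hstr.1
    rwa [card_univ] at this
  obtain ⟨Z, Hd, Tl, E1, E2, AA, BB, D₁, D₂, hcore, hHd, hTl, hZc, hD₁, hD₂, hdeg1, hdeg2, hE1,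
    hE2⟩ := stage1 h X0 M c N hN hN' (by omega) (by omega)
  rw [hX0] at hZc
  have hkz : k * Z.card ≤ k * (t + 2 * M + 2 * (M * (c + 1))) := Nat.mul_le_mul_left _ hZc
  have hzk : Z.card ≤ k * Z.card := Nat.le_mul_of_pos_left _ hk
  have hHdZ : Hd ⊆ Z := fun u hu => hcore.AAZ u hu (hcore.AAm u hu)
  have hTlZ : Tl ⊆ Z := fun u hu => hcore.BBZ u hu (hcore.BBm u hu)
  have hTH : Disjoint Tl Hd := by
    rw [disjoint_left]
    intro v hv hv'
    exact disjoint_left.1 (hcore.ABd v hv' v hv) (hcore.AAm v hv') (hcore.BBm v hv)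
  set SA : Finset V := univ.filter (fun v => v ∉ Z ∧ (Hd.filter (fun u => adj v u)).card ≤ K ∧
    (Tl.filter (fun w => adj w v)).card ≤ K) with hSA
  obtain ⟨YI, YO, y1, y2, y3, y4, y5, y6, y7, y8, y9⟩ := reserve Z SA k (inn adj) (out adj)
  set Y : Finset V := Z.biUnion YI ∪ Z.biUnion YO with hY
  have hYc : Y.card ≤ 2 * (k * Z.card) := by
    have h1 : (Z.biUnion YI).card ≤ Z.card * k := by
      refine card_biUnion_le.trans ?_
      rw [← smul_eq_mul, ← sum_const]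
      exact sum_le_sum fun z _ => y5 z
    have h2 : (Z.biUnion YO).card ≤ Z.card * k := by
      refine card_biUnion_le.trans ?_
      rw [← smul_eq_mul, ← sum_const]
      exact sum_le_sum fun z _ => y6 z
    have h3 := card_union_le (Z.biUnion YI) (Z.biUnion YO)
    rw [← hY] at h3
    rw [mul_comm Z.card k] at h1 h2
    omega
  have hYZ : ∀ v ∈ Y, v ∉ Z := by
    intro v hv
    have hvSA : v ∈ SA := by
      rcases mem_union.1 hv with hv | hv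
      · obtain ⟨z, hz, hv⟩ := mem_biUnion.1 hv
        exact (mem_inter.1 (y1 z hz hv)).2
      · obtain ⟨z, hz, hv⟩ := mem_biUnion.1 hv
        exact (mem_inter.1 (y2 z hz hv)).2
    exact (mem_filter.1 hvSA).2.1
  set R : Finset V := univ \ (Z ∪ Y) with hR
  have hRdef : ∀ v, v ∈ R ↔ v ∉ Z ∧ v ∉ Y := by
    intro v
    rw [hR, mem_sdiff, mem_union, not_or]
    simp
  have hRZ : Disjoint R Z := by
    rw [disjoint_left]
    intro v hv
    exact ((hRdef v).1 hv).1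
  obtain ⟨P, hP⟩ := exists_min (exists_fam (adj := adj) (Tl := Tl) (Hd := Hd) (R := R) K
    (by omega) (by omega) hTH (by
      intro S hS b hb hbS a ha haS
      have h1 : ((Z \ (Hd ∪ Tl)) ∪ Y ∪ S).card < N := by
        have h2 := card_union_le ((Z \ (Hd ∪ Tl)) ∪ Y) S
        have h3 := card_union_le (Z \ (Hd ∪ Tl)) Y
        have h4 := card_le_card (sdiff_subset : Z \ (Hd ∪ Tl) ⊆ Z)
        omega
      have h2 := hstr.2 _ (subset_univ _) h1
      have hb' : b ∈ univ \ ((Z \ (Hd ∪ Tl)) ∪ Y ∪ S) := by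
        simp only [mem_sdiff, mem_univ, true_and, mem_union, not_or, not_and, not_not]
        exact ⟨⟨fun _ _ => hb, fun hbY => hYZ b hbY (hTlZ hb)⟩, hbS⟩
      have ha' : a ∈ univ \ ((Z \ (Hd ∪ Tl)) ∪ Y ∪ S) := by
        simp only [mem_sdiff, mem_univ, true_and, mem_union, not_or, not_and, not_not]
        exact ⟨⟨fun _ hh => absurd ha hh, fun haY => hYZ a haY (hHdZ ha)⟩, haS⟩
      have hin : ∀ v ∈ univ \ ((Z \ (Hd ∪ Tl)) ∪ Y ∪ S), (v ∈ R ∨ v ∈ Tl ∨ v ∈ Hd) ∧ v ∉ S := by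
        intro v hv
        simp only [mem_sdiff, mem_univ, true_and, mem_union, not_or, not_and, not_not] at hv
        refine ⟨?_, hv.2⟩
        by_cases hvZ : v ∈ Z
        · by_cases h3 : v ∈ Hd
          · exact Or.inr (Or.inr h3)
          · exact Or.inr (Or.inl (hv.1.1 hvZ h3))
        · exact Or.inl ((hRdef v).2 ⟨hvZ, hv.1.2⟩)
      exact rt_mono (fun x y hxy => ⟨hxy.1, (hin x hxy.2.1).1, (hin y hxy.2.2).1,
        (hin y hxy.2.2).2⟩) (h2 b hb' a ha')))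
  have h6 : 6 * q < N := by omega
  obtain ⟨I, hIc, s1, s2⟩ := select hP (hRZ.mono_right hHdZ) (hRZ.mono_right hTlZ) q hq n1
    (fun v => h6.trans_le (hN v)) (fun v => h6.trans_le (hN' v))
  obtain ⟨a, b, hab⟩ := ends hP.fam (hRZ.mono_right hHdZ) (hRZ.mono_right hTlZ) hTH
  have hE : ∀ (e D : ℕ), 2 ^ c * e ≤ M * D → 16 * (q * e) ≤ D := by
    intro e D he
    have h7 : M * (16 * (q * e)) ≤ M * D := by
      calc M * (16 * (q * e)) = 16 * (q * M) * e := by ring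
        _ ≤ 2 ^ c * e := Nat.mul_le_mul_right _ n3
        _ ≤ M * D := he
    exact Nat.le_of_mul_le_mul_left h7 hM
  have hIn : Half adj Z Hd R E1 (pf P) I q N D₁ :=
    half_of_min h hP hHdZ hTlZ hRZ hTH hIc (fun v hv i hvi hc hlt hi => (s1 v hv i hvi hc hlt).2 hi)
      hdeg1 hD₁ (hE _ _ hE1)
  have hOut : Half (fun u v => adj v u) Z Tl R E2 (pf fun i => (P i).reverse) I q N D₂ := by
    refine half_of_min h.op hP.reverse hTlZ hHdZ hRZ hTH.symm hIc ?_ hdeg2 hD₂ (hE _ _ hE2)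
    intro v hv i hvi hc hlt hi
    rw [pf_reverse] at hlt ⊢
    refine (s2 v hv i (by simpa using hvi) ?_ hlt).2 hi
    rw [cro_iff]
    rw [cr_iff, pf_reverse] at hc
    exact hc
  rw [pf_reverse] at hOut
  refine ⟨Z, Hd, Tl, E1, E2, R, SA, Y, AA, BB, YI, YO, pf P, I, a, b, D₁, D₂, hcore, hIn, hOut,
    hRdef, ?_, ?_, y1, y2, y3, y4, y7, y8, y9, hYc, hab, ?_, ?_, hTH, by omega, by omega,
    fun v => ⟨hN v, hN' v⟩, by omega, hqK, n5, hqd, hk, ht⟩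
  · intro v
    rw [hY, mem_union, mem_biUnion, mem_biUnion]
  · intro v
    rw [hSA, mem_filter]
    simp
  · intro v hv i hvi hc hlt hcr
    exact (s1 v hv i ((mem_pf _ _).1 hvi) ((cr_iff v).2 hc) hlt).1 ((cro_iff v).2 hcr)
  · intro v hv i hvi hc hlt hcr
    exact (s2 v hv i ((mem_pf _ _).1 hvi) ((cro_iff v).2 hc) hlt).1 ((cr_iff v).2 hcr)

section
variable {V : Type} [Fintype V] {adj : V → V → Prop} {k q t N K : ℕ}
    {X0 Z Hd Tl E1 E2 R SA Y : Finset V} {AA BB YI YO : V → Finset V} {F : Fin K → Finset V}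
    {I : Finset (Fin K)} {a b : Fin K → V} {D₁ D₂ : ℕ}

theorem Data.op (h : Data adj k q t N K X0 Z Hd Tl E1 E2 R SA Y AA BB YI YO F I a b D₁ D₂) :
    Data (fun u v => adj v u) k q t N K X0 Z Tl Hd E2 E1 R SA Y BB AA YO YI F I b a D₂ D₁ where
  core := h.core.op
  hI := h.hO
  hO := h.hI
  Rdef := h.Rdef
  Ydef := fun v => (h.Ydef v).trans or_comm
  SAdef := fun v => (h.SAdef v).trans (by tauto)
  YIs := h.YOs
  YOs := h.YIs
  YIc := h.YOc
  YOc := h.YIc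
  YId := h.YOd
  YOd := h.YId
  YIO := fun z z' => (h.YIO z' z).symm
  Yc := h.Yc
  ends := fun j => by
    obtain ⟨h1, h2, h3, h4, h5, h6, h7, h8⟩ := h.ends j
    refine ⟨h2, h1, h4, h3, h6, h5, fun v hv => ?_, ?_⟩
    · rcases h7 v hv with h9 | h9 | h9
      · exact Or.inl h9
      · exact Or.inr (Or.inr h9)
      · exact Or.inr (Or.inl h9)
    · exact rt_mono (fun x y hxy => ⟨hxy.1, hxy.2.2, hxy.2.1⟩) (rt_swap h8)
  nb := h.nb2
  nb2 := h.nb
  TH := h.TH.symm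
  Hdc := h.Tlc
  Tlc := h.Hdc
  deg := fun v => ⟨(h.deg v).2, (h.deg v).1⟩
  num := h.num
  qK := h.qK
  num2 := h.num2
  qdef := h.qdef
  k0 := h.k0
  t0 := h.t0

end

end Pool.Agent.H159TP
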