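import Mathlib

/-!
Tournaments and `k`-strong sets of vertices.
-/

set_option autoImplicit false

namespace Pool.Agent.H159TP

open Finset Classical

/-- A tournament: every pair of distinct vertices is joined by exactly one arc, no loops. -/
structure IsTournament {V : Type} (adj : V → V → Prop) : Prop where
  irrefl : ∀ v, ¬ adj v v
  total : ∀ u v, u ≠ v → adj u v ∨ adj v u
  asymm : ∀ u v, adj u v → ¬ adj v u

/-- The subdigraph induced on `U` is strongly connected: any two vertices of `U` are joined by a
directed path (walk) inside `U`. -/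
def StrongOn {V : Type} (adj : V → V → Prop) (U : Finset V) : Prop :=
  ∀ u ∈ U, ∀ v ∈ U, Relation.ReflTransGen (fun a b => adj a b ∧ a ∈ U ∧ b ∈ U) u v

/-- The subdigraph induced on `U` is `k`-strong: `|U| ≥ k + 1`, and it remains strongly connected
when at most `k - 1` vertices are deleted (for `k ≥ 1`). -/
def KStrong {V : Type} (adj : V → V → Prop) (k : ℕ) (U : Finset V) : Prop :=
  k + 1 ≤ U.card ∧ ∀ X : Finset V, X ⊆ U → X.card < k → StrongOn adj (U \ X)

end Pool.Agent.H159TP
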