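import Pool.Agent.H159TP.Defs

/-!
Small sets dominating almost all vertices; vertices of small degree.
-/

set_option autoImplicit false

namespace Pool.Agent.H159TP

open Finset Classical

section
variable {V : Type} {adj : V → V → Prop}

theorem IsTournament.op (h : IsTournament adj) : IsTournament (fun u v => adj v u) where
  irrefl := h.irrefl
  total := fun u v huv => (h.total u v huv).symm
  asymm := fun u v huv hvu => h.asymm v u huv hvu

/-- the number of arcs inside `C`, counted twice -/
theorem sum_deg (h : IsTournament adj) (C : Finset V) :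
    2 * ∑ a ∈ C, (C.filter (fun v => adj v a)).card = C.card * (C.card - 1) := by
  have h1 : ∑ a ∈ C, (C.filter (fun v => adj v a)).card =
      ∑ a ∈ C, (C.filter (fun v => adj a v)).card := by
    simp only [card_filter]
    rw [sum_comm]
  have h2 : ∑ a ∈ C, ((C.filter (fun v => adj v a)).card + (C.filter (fun v => adj a v)).card) =
      C.card * (C.card - 1) := by
    rw [← smul_eq_mul, ← sum_const]
    refine sum_congr rfl fun a ha => ?_
    rw [← card_union_of_disjoint, ← card_erase_of_mem ha]
    · congr 1
      ext v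
      simp only [mem_union, mem_filter, mem_erase]
      constructor
      · rintro (⟨h3, h4⟩ | ⟨h3, h4⟩)
        · exact ⟨fun he => h.irrefl a (he ▸ h4), h3⟩
        · exact ⟨fun he => h.irrefl a (he ▸ h4), h3⟩
      · rintro ⟨h3, h4⟩
        rcases h.total v a h3 with h5 | h5
        · exact Or.inl ⟨h4, h5⟩
        · exact Or.inr ⟨h4, h5⟩
    · rw [disjoint_left]
      intro v h3 h4
      rw [mem_filter] at h3 h4
      exact h.asymm _ _ h3.2 h4.2
  rw [sum_add_distrib, ← h1] at h2
  omega

theorem exists_low (h : IsTournament adj) (C : Finset V) (hC : C.Nonempty) :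
    ∃ a ∈ C, 2 * (C.filter (fun v => adj v a)).card + 1 ≤ C.card := by
  by_contra hne
  push Not at hne
  have h1 := sum_deg h C
  have h2 : ∑ a ∈ C, C.card ≤ ∑ a ∈ C, 2 * (C.filter (fun v => adj v a)).card :=
    sum_le_sum fun a ha => by have := hne a ha; omega
  rw [← mul_sum, h1, sum_const, smul_eq_mul] at h2
  have h3 := hC.card_pos
  have h4 : C.card * (C.card - 1) < C.card * C.card := Nat.mul_lt_mul_of_pos_left (by omega) h3
  omega

/-- A set of at most `c` vertices of `C` dominating almost all of `C`. -/
theorem exists_dom (h : IsTournament adj) (C : Finset V) (hC : C.Nonempty) (c : ℕ) :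
    ∃ A ⊆ C, ∃ a ∈ A, A.card ≤ c + 1 ∧ (∀ a' ∈ A, a' ≠ a → adj a a') ∧
      2 ^ c * (C.filter (fun v => ∀ a' ∈ A, adj v a')).card ≤ C.card := by
  induction c with
  | zero =>
    obtain ⟨a, ha⟩ := hC
    refine ⟨{a}, by simpa using ha, a, mem_singleton_self a, by simp, ?_, ?_⟩
    · intro a' ha' hne
      exact absurd (mem_singleton.1 ha') hne
    · rw [pow_zero, one_mul]
      exact card_filter_le _ _
  | succ c ih =>
    obtain ⟨A, hA, a, ha, h1, h2, h3⟩ := ih
    by_cases hE : (C.filter (fun v => ∀ a' ∈ A, adj v a')).Nonempty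
    · obtain ⟨b, hb, h4⟩ := exists_low h _ hE
      rw [mem_filter] at hb
      have hbA : b ∉ A := fun hbA => h.irrefl b (hb.2 b hbA)
      refine ⟨insert b A, insert_subset hb.1 hA, b, mem_insert_self b A, ?_, ?_, ?_⟩
      · rw [card_insert_of_notMem hbA]; omega
      · intro a' ha' hne
        rcases mem_insert.1 ha' with h5 | h5
        · exact absurd h5 hne
        · exact hb.2 a' h5
      · have h5 : C.filter (fun v => ∀ a' ∈ insert b A, adj v a') =
            (C.filter (fun v => ∀ a' ∈ A, adj v a')).filter (fun v => adj v b) := by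
          ext v
          simp only [mem_filter, mem_insert, forall_eq_or_imp]
          tauto
        rw [h5]
        calc 2 ^ (c + 1) * ((C.filter (fun v => ∀ a' ∈ A, adj v a')).filter
              (fun v => adj v b)).card = 2 ^ c * (2 * ((C.filter (fun v => ∀ a' ∈ A,
              adj v a')).filter (fun v => adj v b)).card) := by ring
          _ ≤ 2 ^ c * (C.filter (fun v => ∀ a' ∈ A, adj v a')).card :=
            Nat.mul_le_mul_left _ (by omega)
          _ ≤ C.card := h3
    · refine ⟨A, hA, a, ha, by omega, h2, ?_⟩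
      rw [not_nonempty_iff_eq_empty] at hE
      rw [hE]
      simp

theorem exists_dom' (h : IsTournament adj) (C : Finset V) (hC : C.Nonempty) (c : ℕ) :
    ∃ A ⊆ C, ∃ a ∈ A, A.card ≤ c + 1 ∧ (∀ a' ∈ A, a' ≠ a → adj a a') ∧
      ∀ X ⊆ C, (∀ v ∈ X, ∀ a' ∈ A, adj v a') → 2 ^ c * X.card ≤ C.card := by
  obtain ⟨A, hA, a, ha, h1, h2, h3⟩ := exists_dom h C hC c
  refine ⟨A, hA, a, ha, h1, h2, fun X hX hX' => le_trans (Nat.mul_le_mul_left _
    (card_le_card fun v hv => ?_)) h3⟩
  exact mem_filter.2 ⟨hX hv, hX' v hv⟩

/-- Vertices of smallest value. -/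
theorem exists_lowest (f : V → ℕ) (W : Finset V) (M : ℕ) (hM : M ≤ W.card) :
    ∃ S ⊆ W, S.card = M ∧ ∀ s ∈ S, ∀ v ∈ W \ S, f s ≤ f v := by
  induction M with
  | zero => exact ⟨∅, empty_subset _, rfl, by simp⟩
  | succ M ih =>
    obtain ⟨S, hS, h1, h2⟩ := ih (by omega)
    have h3 : (W \ S).Nonempty := by
      rw [← card_pos, card_sdiff_of_subset hS]; omega
    obtain ⟨s, hs, h4⟩ := exists_min_image (W \ S) f h3
    rw [mem_sdiff] at hs
    refine ⟨insert s S, insert_subset hs.1 hS, by rw [card_insert_of_notMem hs.2, h1], ?_⟩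
    intro s' hs' v hv
    rw [mem_sdiff, mem_insert, not_or] at hv
    rcases mem_insert.1 hs' with h5 | h5
    · subst h5
      exact h4 v (mem_sdiff.2 ⟨hv.1, hv.2.2⟩)
    · exact h2 s' h5 v (mem_sdiff.2 ⟨hv.1, hv.2.2⟩)

end

section
variable {V : Type} [Fintype V] {adj : V → V → Prop}

/-- in-neighbours -/
noncomputable def inn (adj : V → V → Prop) (v : V) : Finset V := univ.filter (fun u => adj u v)

/-- out-neighbours -/
noncomputable def out (adj : V → V → Prop) (v : V) : Finset V := univ.filter (fun u => adj v u)

theorem mem_inn (u v : V) : u ∈ inn adj v ↔ adj u v := by simp [inn]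

theorem mem_out (u v : V) : u ∈ out adj v ↔ adj v u := by simp [out]

/-- Disjoint almost dominating sets for all seeds in `S`, avoiding `F`. -/
theorem exists_doms (h : IsTournament adj) (c : ℕ) (S F : Finset V)
    (hN : ∀ v, F.card + S.card * (c + 1) < (inn adj v).card) :
    ∃ (A : V → Finset V) (hd : V → V), (∀ s ∈ S, Disjoint (A s) F) ∧
      (∀ s ∈ S, ∀ s' ∈ S, s ≠ s' → Disjoint (A s) (A s')) ∧ (∀ s ∈ S, (A s).card ≤ c + 1) ∧
      (∀ s ∈ S, hd s ∈ A s ∧ adj (hd s) s ∧ ∀ a ∈ A s, a ≠ hd s → adj (hd s) a) ∧
      ∀ s ∈ S, ∀ X : Finset V, (∀ v ∈ X, v ∉ F ∧ (∀ s' ∈ S, v ∉ A s') ∧ adj v s ∧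
        ∀ a ∈ A s, adj v a) → 2 ^ c * X.card ≤ (inn adj s).card := by
  induction S using Finset.induction_on generalizing F with
  | empty =>
    refine ⟨fun _ => ∅, fun v => v, ?_, ?_, ?_, ?_, ?_⟩ <;> simp
  | insert s S hs ih =>
    -- the set for `s`
    have hC : (inn adj s \ F).Nonempty := by
      rw [← card_pos]
      have h1 := le_card_sdiff F (inn adj s)
      have h2 := hN s
      omega
    obtain ⟨A₀, hA₀, a₀, ha₀, h1, h2, h3⟩ := exists_dom' h _ hC c
    obtain ⟨A, hd, g1, g2, g3, g4, g5⟩ := ih (F ∪ A₀) (by
      intro v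
      have h4 := hN v
      have h5 := card_union_le F A₀
      rw [card_insert_of_notMem hs] at h4
      have h6 : (S.card + 1) * (c + 1) = S.card * (c + 1) + (c + 1) := by ring
      omega)
    have hA₀F : Disjoint A₀ F := by
      rw [disjoint_left]
      intro v hv hvF
      exact (mem_sdiff.1 (hA₀ hv)).2 hvF
    refine ⟨Function.update A s A₀, Function.update hd s a₀, ?_, ?_, ?_, ?_, ?_⟩
    · intro s' hs'
      by_cases hss : s' = s
      · subst hss; rw [Function.update_self]; exact hA₀F
      · rw [Function.update_of_ne hss]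
        have := g1 s' (mem_of_mem_insert_of_ne hs' hss)
        rw [disjoint_union_right] at this
        exact this.1
    · intro s' hs' s'' hs'' hne
      by_cases hss : s' = s
      · subst hss
        rw [Function.update_self, Function.update_of_ne (Ne.symm hne)]
        have := g1 s'' (mem_of_mem_insert_of_ne hs'' (Ne.symm hne))
        rw [disjoint_union_right] at this
        exact this.2.symm
      · by_cases hss' : s'' = s
        · subst hss'
          rw [Function.update_self, Function.update_of_ne hss]
          have := g1 s' (mem_of_mem_insert_of_ne hs' hss)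
          rw [disjoint_union_right] at this
          exact this.2
        · rw [Function.update_of_ne hss, Function.update_of_ne hss']
          exact g2 s' (mem_of_mem_insert_of_ne hs' hss) s'' (mem_of_mem_insert_of_ne hs'' hss') hne
    · intro s' hs'
      by_cases hss : s' = s
      · subst hss; rw [Function.update_self]; exact h1
      · rw [Function.update_of_ne hss]; exact g3 s' (mem_of_mem_insert_of_ne hs' hss)
    · intro s' hs'
      by_cases hss : s' = s
      · subst hss
        rw [Function.update_self, Function.update_self]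
        exact ⟨ha₀, (mem_inn _ _).1 (mem_sdiff.1 (hA₀ ha₀)).1, h2⟩
      · rw [Function.update_of_ne hss, Function.update_of_ne hss]
        exact g4 s' (mem_of_mem_insert_of_ne hs' hss)
    · intro s' hs' X hX
      by_cases hss : s' = s
      · subst hss
        rw [Function.update_self] at hX
        refine le_trans (h3 X (fun v hv => ?_) fun v hv => (hX v hv).2.2.2)
          (card_le_card sdiff_subset)
        exact mem_sdiff.2 ⟨(mem_inn _ _).2 (hX v hv).2.2.1, (hX v hv).1⟩
      · rw [Function.update_of_ne hss] at hX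
        refine g5 s' (mem_of_mem_insert_of_ne hs' hss) X fun v hv => ?_
        obtain ⟨k1, k2, k3, k4⟩ := hX v hv
        refine ⟨?_, ?_, k3, k4⟩
        · rw [mem_union, not_or]
          refine ⟨k1, ?_⟩
          have := k2 s (mem_insert_self _ _)
          rwa [Function.update_self] at this
        · intro s'' hs''
          have hne : s'' ≠ s := by
            rintro rfl
            exact hs hs''
          have := k2 s'' (mem_insert_of_mem hs'')
          rwa [Function.update_of_ne hne] at this

end

end Pool.Agent.H159TP
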