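import Pool.Agent.H159TP.Color

/-!
End of the proof: the colouring exists.
-/

set_option autoImplicit false

namespace Pool.Agent.H159TP

open Finset Classical

section
variable {V : Type} [Fintype V] {adj : V → V → Prop} {k q t N K : ℕ}
    {X0 Z Hd Tl E1 E2 R SA Y : Finset V} {AA BB YI YO : V → Finset V} {F : Fin K → Finset V}
    {I : Finset (Fin K)} {a b : Fin K → V} {D₁ D₂ : ℕ}
variable (h : Data adj k q t N K X0 Z Hd Tl E1 E2 R SA Y AA BB YI YO F I a b D₁ D₂)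
include h

theorem Data.HdZ {u : V} (hu : u ∈ Hd) : u ∈ Z := h.core.AAZ u hu (h.core.AAm u hu)

theorem Data.TlZ {u : V} (hu : u ∈ Tl) : u ∈ Z := h.core.BBZ u hu (h.core.BBm u hu)

theorem Data.RnZ {v : V} (hv : v ∈ R) : v ∉ Z := ((h.Rdef v).1 hv).1

theorem Data.unit_cases {j : Fin K} {v : V} (hv : v ∈ AA (a j) ∨ v ∈ BB (b j) ∨ v ∈ F j) :
    (v ∈ R ∧ v ∈ F j) ∨ v ∈ AA (a j) ∨ v ∈ BB (b j) := by
  obtain ⟨h1, h2, h3, h4, h5, h6, h7, h8⟩ := h.ends j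
  rcases hv with hv | hv | hv
  · exact Or.inr (Or.inl hv)
  · exact Or.inr (Or.inr hv)
  · rcases h7 v hv with h9 | h9 | h9
    · exact Or.inl ⟨h9, hv⟩
    · rw [h9]; exact Or.inr (Or.inl (h.core.AAm _ h1))
    · rw [h9]; exact Or.inr (Or.inr (h.core.BBm _ h2))

theorem Data.unit_disj {j j' : Fin K} (hj : j ≠ j') {v : V}
    (hv : v ∈ AA (a j) ∨ v ∈ BB (b j) ∨ v ∈ F j) :
    ¬ (v ∈ AA (a j') ∨ v ∈ BB (b j') ∨ v ∈ F j') := by
  intro hv'
  obtain ⟨h1, h2, h3, h4, -⟩ := h.ends j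
  obtain ⟨h1', h2', h3', h4', -⟩ := h.ends j'
  have hdisj := h.hI.disj j j' hj
  have ha : a j ≠ a j' := fun he => disjoint_left.1 hdisj h3 (he ▸ h3')
  have hb : b j ≠ b j' := fun he => disjoint_left.1 hdisj h4 (he ▸ h4')
  rcases h.unit_cases hv with ⟨hR, hF⟩ | hA | hB
  · have hZ := h.RnZ hR
    rcases h.unit_cases hv' with ⟨hR', hF'⟩ | hA' | hB'
    · exact disjoint_left.1 hdisj hF hF'
    · exact hZ (h.core.AAZ _ h1' hA')
    · exact hZ (h.core.BBZ _ h2' hB')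
  · rcases h.unit_cases hv' with ⟨hR', hF'⟩ | hA' | hB'
    · exact h.RnZ hR' (h.core.AAZ _ h1 hA)
    · exact disjoint_left.1 (h.core.AAd _ h1 _ h1' ha) hA hA'
    · exact disjoint_left.1 (h.core.ABd _ h1 _ h2') hA hB'
  · rcases h.unit_cases hv' with ⟨hR', hF'⟩ | hA' | hB'
    · exact h.RnZ hR' (h.core.BBZ _ h2 hB)
    · exact disjoint_left.1 (h.core.ABd _ h1' _ h2) hA' hB
    · exact disjoint_left.1 (h.core.BBd _ h2 _ h2' hb) hB hB'

theorem Data.unit_X0 {j : Fin K} {v : V} (hv : v ∈ AA (a j) ∨ v ∈ BB (b j) ∨ v ∈ F j) :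
    v ∉ X0 := by
  intro hX
  obtain ⟨h1, h2, -⟩ := h.ends j
  rcases h.unit_cases hv with ⟨hR, hF⟩ | hA | hB
  · exact h.RnZ hR (h.core.X0Z hX)
  · exact disjoint_left.1 (h.core.AAX _ h1) hA hX
  · exact disjoint_left.1 (h.core.BBX _ h2) hB hX

theorem Data.unit_unused {j : Fin K} {v : V} (hv : v ∈ AA (a j) ∨ v ∈ BB (b j) ∨ v ∈ F j)
    (hvH : v ∈ Hd ∨ v ∈ Tl) : ∃ i, v ∈ F i := by
  obtain ⟨h1, h2, h3, h4, -⟩ := h.ends j
  by_contra hno
  have hZ : v ∈ Z := by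
    rcases hvH with hvH | hvH
    · exact h.HdZ hvH
    · exact h.TlZ hvH
  rcases h.unit_cases hv with ⟨hR, hF⟩ | hA | hB
  · exact h.RnZ hR hZ
  · rcases hvH with hvH | hvH
    · by_cases he : v = a j
      · exact hno ⟨j, he ▸ h3⟩
      · exact disjoint_left.1 (h.core.AAd v hvH _ h1 he) (h.core.AAm v hvH) hA
    · exact disjoint_left.1 (h.core.ABd _ h1 v hvH) hA (h.core.BBm v hvH)
  · rcases hvH with hvH | hvH
    · exact disjoint_left.1 (h.core.ABd v hvH _ h2) (h.core.AAm v hvH) hB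
    · by_cases he : v = b j
      · exact hno ⟨j, he ▸ h4⟩
      · exact disjoint_left.1 (h.core.BBd v hvH _ h2 he) (h.core.BBm v hvH) hB

theorem Data.psi1 (x : Fin t → V) (hx : Function.Injective x) (hX0 : ∀ v, v ∈ X0 ↔ ∃ i, x i = v)
    (g : Fin K → Fin t) (γ : V → Fin t) : ∃ ψ : V → Fin t, (∀ i, ψ (x i) = i) ∧
      (∀ j ∈ I, ∀ v, (v ∈ AA (a j) ∨ v ∈ BB (b j) ∨ v ∈ F j) → ψ v = g j) ∧
      ∀ u, (u ∈ Hd ∨ u ∈ Tl) → (∀ j, u ∉ F j) → ψ u = γ u := by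
  have key : ∀ v, ∃ c : Fin t, (∀ i, x i = v → c = i) ∧
      (∀ j ∈ I, (v ∈ AA (a j) ∨ v ∈ BB (b j) ∨ v ∈ F j) → c = g j) ∧
      ((v ∈ Hd ∨ v ∈ Tl) → (∀ j, v ∉ F j) → c = γ v) := by
    intro v
    by_cases h1 : ∃ i, x i = v
    · obtain ⟨i, hi⟩ := h1
      have hvX : v ∈ X0 := (hX0 v).2 ⟨i, hi⟩
      refine ⟨i, fun i' hi' => hx (hi.trans hi'.symm), fun j _ hv => absurd hvX (h.unit_X0 hv), ?_⟩
      rintro (hH | hT) _
      · exact absurd hvX (disjoint_left.1 (h.core.AAX v hH) (h.core.AAm v hH))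
      · exact absurd hvX (disjoint_left.1 (h.core.BBX v hT) (h.core.BBm v hT))
    · by_cases h2 : ∃ j ∈ I, v ∈ AA (a j) ∨ v ∈ BB (b j) ∨ v ∈ F j
      · obtain ⟨j, _, hj⟩ := h2
        refine ⟨g j, fun i hi => absurd ⟨i, hi⟩ h1, fun j' _ hj' => ?_, fun hH hn => ?_⟩
        · by_cases he : j = j'
          · rw [he]
          · exact absurd hj' (h.unit_disj he hj)
        · obtain ⟨i, hi⟩ := h.unit_unused hj hH
          exact absurd hi (hn i)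
      · exact ⟨γ v, fun i hi => absurd ⟨i, hi⟩ h1, fun j hj hv => absurd ⟨j, hj, hv⟩ h2,
          fun _ _ => rfl⟩
  choose ψ hψ using key
  exact ⟨ψ, fun i => (hψ (x i)).1 i rfl, fun j hj v hv => (hψ v).2.1 j hj hv,
    fun u hu hn => (hψ u).2.2 hu hn⟩

theorem Data.mem_p {v : V} (hv : v ∈ I.biUnion F) : v ∈ R ∨ v ∈ Z := by
  obtain ⟨j, _, hvj⟩ := mem_biUnion.1 hv
  obtain ⟨h1, h2, h3, h4, h5, h6, h7, h8⟩ := h.ends j
  rcases h7 v hvj with h9 | h9 | h9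
  · exact Or.inl h9
  · rw [h9]; exact Or.inr (h.HdZ h1)
  · rw [h9]; exact Or.inr (h.TlZ h2)

theorem Data.psi2 (g : Fin K → Fin t) (ψ1 : V → Fin t) : ∃ ψ : V → Fin t,
    (∀ v, v ∈ Z ∨ v ∈ I.biUnion F → ψ v = ψ1 v) ∧
    (∀ z ∈ Z, ∀ v ∈ YI z, ψ v = ψ1 z) ∧ (∀ z ∈ Z, ∀ v ∈ YO z, ψ v = ψ1 z) ∧
    (∀ v ∈ CI adj Hd R F I, v ∉ I.biUnion F → ∃ j ∈ I, ψ v = g j ∧
      k ≤ ((F j).filter (fun y => adj y v ∧ y ∉ Z ∧ y ∉ E1)).card) ∧
    (∀ v ∈ CI (fun u v => adj v u) Tl R F I, v ∉ I.biUnion F → ∃ j ∈ I, ψ v = g j ∧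
      k ≤ ((F j).filter (fun y => adj v y ∧ y ∉ Z ∧ y ∉ E2)).card) := by
  have key : ∀ v, ∃ c : Fin t, ((v ∈ Z ∨ v ∈ I.biUnion F) → c = ψ1 v) ∧
      (∀ z ∈ Z, v ∈ YI z → c = ψ1 z) ∧ (∀ z ∈ Z, v ∈ YO z → c = ψ1 z) ∧
      (v ∈ CI adj Hd R F I → v ∉ I.biUnion F → ∃ j ∈ I, c = g j ∧
        k ≤ ((F j).filter (fun y => adj y v ∧ y ∉ Z ∧ y ∉ E1)).card) ∧
      (v ∈ CI (fun u v => adj v u) Tl R F I → v ∉ I.biUnion F → ∃ j ∈ I, c = g j ∧
        k ≤ ((F j).filter (fun y => adj v y ∧ y ∉ Z ∧ y ∉ E2)).card) := by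
    intro v
    have hYI : ∀ z ∈ Z, v ∈ YI z → v ∈ Y := fun z hz hv => (h.Ydef v).2 (Or.inl ⟨z, hz, hv⟩)
    have hYO : ∀ z ∈ Z, v ∈ YO z → v ∈ Y := fun z hz hv => (h.Ydef v).2 (Or.inr ⟨z, hz, hv⟩)
    have hYZ : v ∈ Y → v ∉ Z := fun hv => h.SAZ (h.YSA hv)
    have hRY : v ∈ R → v ∉ Y := fun hv => ((h.Rdef v).1 hv).2
    have hRZ : v ∈ R → v ∉ Z := fun hv => h.RnZ hv
    have hCR : v ∈ CI adj Hd R F I → v ∈ R := fun hv => ((mem_CI v).1 hv).1
    have hCR' : v ∈ CI (fun u v => adj v u) Tl R F I → v ∈ R := fun hv => ((mem_CI v).1 hv).1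
    have hYp : v ∈ Y → v ∉ I.biUnion F := by
      intro hv hp
      rcases h.mem_p hp with h1 | h1
      · exact hRY h1 hv
      · exact hYZ hv h1
    by_cases c1 : v ∈ Z ∨ v ∈ I.biUnion F
    · refine ⟨ψ1 v, fun _ => rfl, fun z hz hv => ?_, fun z hz hv => ?_, fun hC hp => ?_,
        fun hC hp => ?_⟩
      · exfalso
        rcases c1 with c1 | c1
        · exact hYZ (hYI z hz hv) c1
        · exact hYp (hYI z hz hv) c1
      · exfalso
        rcases c1 with c1 | c1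
        · exact hYZ (hYO z hz hv) c1
        · exact hYp (hYO z hz hv) c1
      · exfalso
        rcases c1 with c1 | c1
        · exact hRZ (hCR hC) c1
        · exact hp c1
      · exfalso
        rcases c1 with c1 | c1
        · exact hRZ (hCR' hC) c1
        · exact hp c1
    · by_cases c2 : ∃ z ∈ Z, v ∈ YI z
      · obtain ⟨z, hz, hv⟩ := c2
        refine ⟨ψ1 z, fun hh => absurd hh c1, fun z' _ hv' => ?_, fun z' _ hv' => ?_,
          fun hC _ => absurd (hYI z hz hv) (hRY (hCR hC)),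
          fun hC _ => absurd (hYI z hz hv) (hRY (hCR' hC))⟩
        · by_cases he : z = z'
          · rw [he]
          · exact absurd hv' (disjoint_left.1 (h.YId z z' he) hv)
        · exact absurd hv' (disjoint_left.1 (h.YIO z z') hv)
      · by_cases c3 : ∃ z ∈ Z, v ∈ YO z
        · obtain ⟨z, hz, hv⟩ := c3
          refine ⟨ψ1 z, fun hh => absurd hh c1, fun z' hz' hv' => absurd ⟨z', hz', hv'⟩ c2,
            fun z' _ hv' => ?_, fun hC _ => absurd (hYO z hz hv) (hRY (hCR hC)),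
            fun hC _ => absurd (hYO z hz hv) (hRY (hCR' hC))⟩
          by_cases he : z = z'
          · rw [he]
          · exact absurd hv' (disjoint_left.1 (h.YOd z z' he) hv)
        · by_cases c4 : v ∈ CI adj Hd R F I
          · obtain ⟨hvR, hcr, hcon⟩ := (mem_CI v).1 c4
            obtain ⟨j, hj, hkj⟩ := (h.hI.conc_good k h.k0 h.q0 h.num2 hvR hcr hcon).2
            refine ⟨g j, fun hh => absurd hh c1, fun z' hz' hv' => absurd ⟨z', hz', hv'⟩ c2,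
              fun z' hz' hv' => absurd ⟨z', hz', hv'⟩ c3, fun _ _ => ⟨j, hj, rfl, hkj⟩,
              fun hC _ => ?_⟩
            obtain ⟨i, hi⟩ := h.hI.conc_on_path h.N6 hvR hcr hcon
            exact absurd ((mem_CI v).1 hC).2.1 (h.nb v hvR i hi hcr hcon)
          · by_cases c5 : v ∈ CI (fun u v => adj v u) Tl R F I
            · obtain ⟨hvR, hcr, hcon⟩ := (mem_CI v).1 c5
              obtain ⟨j, hj, hkj⟩ := (h.hO.conc_good k h.k0 h.q0 h.num2 hvR hcr hcon).2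
              exact ⟨g j, fun hh => absurd hh c1, fun z' hz' hv' => absurd ⟨z', hz', hv'⟩ c2,
                fun z' hz' hv' => absurd ⟨z', hz', hv'⟩ c3, fun hC => absurd hC c4,
                fun _ _ => ⟨j, hj, rfl, hkj⟩⟩
            · exact ⟨ψ1 v, fun _ => rfl, fun z' hz' hv' => absurd ⟨z', hz', hv'⟩ c2,
                fun z' hz' hv' => absurd ⟨z', hz', hv'⟩ c3, fun hC => absurd hC c4,
                fun hC => absurd hC c5⟩
  choose ψ hψ using key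
  exact ⟨ψ, fun v hv => (hψ v).1 hv, fun z hz v hv => (hψ v).2.1 z hz hv,
    fun z hz v hv => (hψ v).2.2.1 z hz hv, fun v hv hp => (hψ v).2.2.2.1 hv hp,
    fun v hv hp => (hψ v).2.2.2.2 hv hp⟩


end

end Pool.Agent.H159TP
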