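import Pool.Agent.H159TP.Select

/-!
Counting for the incoming arcs (the outgoing ones are treated by reversing the tournament).
-/

set_option autoImplicit false

namespace Pool.Agent.H159TP

open Finset Classical

/-- `v` has an unused head as an out-neighbour -/
def Cr {V : Type} {K : ℕ} (adj : V → V → Prop) (Hd : Finset V) (F : Fin K → Finset V)
    (v : V) : Prop := ∃ u ∈ Hd, (∀ j, u ∉ F j) ∧ adj v u

/-- the facts about incoming arcs -/
structure Half {V : Type} [Fintype V] (adj : V → V → Prop) (Z Hd R E : Finset V) {K : ℕ}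
    (F : Fin K → Finset V) (I : Finset (Fin K)) (q N D : ℕ) : Prop where
  tour : IsTournament adj
  HdZ : Hd ⊆ Z
  RZ : Disjoint R Z
  Ic : I.card = q
  disj : ∀ i j, i ≠ j → Disjoint (F i) (F j)
  two : ∀ i, (F i ∩ Z).card ≤ 2
  late : ∀ u ∈ Hd, (∀ j, u ∉ F j) → ∀ i, (inn adj u ∩ F i).card ≤ 2
  late3 : ∀ v ∈ R, (∀ j, v ∉ F j) → Cr adj Hd F v → ∀ i, (inn adj v ∩ F i).card ≤ 3
  LI : (univ.filter (fun v => v ∈ R ∧ (∃ i, v ∈ F i) ∧ Cr adj Hd F v)).card ≤ K
  S1 : ∀ v ∈ R, ∀ i, v ∈ F i → Cr adj Hd F v →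
    (inn adj v).card < 2 * (inn adj v ∩ I.biUnion F).card → i ∈ I →
      (inn adj v).card ≤ 4 * (inn adj v ∩ F i).card
  deg : ∀ v, v ∉ Z ∨ v ∈ Hd → D ≤ (inn adj v).card
  used : (Hd.filter (fun u => ∃ j, u ∈ F j)).card ≤ K
  ND : N ≤ D
  Ecard : 16 * (q * E.card) ≤ D

section
variable {V : Type} [Fintype V] {adj : V → V → Prop} {Z Hd R E : Finset V} {K : ℕ}
    {F : Fin K → Finset V} {I : Finset (Fin K)} {q N D : ℕ}

omit [Fintype V] in
theorem cnt (X E G p : Finset V) :
    X.card ≤ ((X \ E) \ (G ∪ p)).card + E.card + G.card + (X ∩ p).card := by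
  have h : X ⊆ (((X \ E) \ (G ∪ p)) ∪ E) ∪ G ∪ (X ∩ p) := by
    intro v hv
    simp only [mem_union, mem_sdiff, mem_inter]
    tauto
  have h1 := card_le_card h
  have h2 := card_union_le ((((X \ E) \ (G ∪ p)) ∪ E) ∪ G) (X ∩ p)
  have h3 := card_union_le (((X \ E) \ (G ∪ p)) ∪ E) G
  have h4 := card_union_le ((X \ E) \ (G ∪ p)) E
  omega

omit [Fintype V] in
theorem card_inter_biUnion_le (X : Finset V) (m : ℕ) (h : ∀ i ∈ I, (X ∩ F i).card ≤ m) :
    (X ∩ I.biUnion F).card ≤ I.card * m := by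
  have h1 : X ∩ I.biUnion F ⊆ I.biUnion (fun i => X ∩ F i) := by
    intro v hv
    rw [mem_inter, mem_biUnion] at hv
    obtain ⟨hv1, j, hj, hv2⟩ := hv
    exact mem_biUnion.2 ⟨j, hj, mem_inter.2 ⟨hv1, hv2⟩⟩
  refine (card_le_card h1).trans (card_biUnion_le.trans ?_)
  rw [← smul_eq_mul, ← sum_const]
  exact sum_le_sum h

theorem Half.conc_on_path (h : Half adj Z Hd R E F I q N D) (hN : 6 * q < N) {v : V} (hv : v ∈ R)
    (hc : Cr adj Hd F v) (hcon : (inn adj v).card < 2 * (inn adj v ∩ I.biUnion F).card) :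
    ∃ i, v ∈ F i := by
  by_contra hno
  push Not at hno
  have h1 := card_inter_biUnion_le (I := I) (inn adj v) 3 (fun i _ => h.late3 v hv hno hc i)
  rw [h.Ic] at h1
  have h2 := h.deg v (Or.inl (disjoint_left.1 h.RZ hv))
  have h3 := h.ND
  omega

/-- many good in-neighbours on a path -/
theorem Half.good_of (h : Half adj Z Hd R E F I q N D) (i : Fin K) (v : V) (k n : ℕ)
    (hn : n ≤ 4 * q) (hd : D ≤ n * (inn adj v ∩ F i).card) (hN : 8 * (q * (k + 2)) ≤ N)
    (hq : 0 < q) (_hk : 0 < k) :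
    k ≤ ((F i).filter (fun y => adj y v ∧ y ∉ Z ∧ y ∉ E)).card := by
  have h1 : (inn adj v ∩ F i).card ≤
      ((F i).filter (fun y => adj y v ∧ y ∉ Z ∧ y ∉ E)).card + (F i ∩ Z).card + E.card := by
    have : inn adj v ∩ F i ⊆ (((F i).filter (fun y => adj y v ∧ y ∉ Z ∧ y ∉ E)) ∪ (F i ∩ Z)) ∪ E := by
      intro y hy
      rw [mem_inter, mem_inn] at hy
      simp only [mem_union, mem_filter, mem_inter]
      tauto
    have h2 := card_le_card this
    have h3 := card_union_le (((F i).filter (fun y => adj y v ∧ y ∉ Z ∧ y ∉ E)) ∪ (F i ∩ Z)) E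
    have h4 := card_union_le ((F i).filter (fun y => adj y v ∧ y ∉ Z ∧ y ∉ E)) (F i ∩ Z)
    omega
  have h2 := h.two i
  by_contra hlt
  push Not at hlt
  have h3 : (inn adj v ∩ F i).card ≤ (k + 1) + E.card := by omega
  have h4 : D ≤ 4 * q * ((k + 1) + E.card) :=
    hd.trans (Nat.mul_le_mul hn h3)
  have h5 := h.Ecard
  have h6 := h.ND
  have h7 : 4 * q * ((k + 1) + E.card) = 4 * (q * (k + 1)) + 4 * (q * E.card) := by ring
  have h8 : q * (k + 2) = q * (k + 1) + q := by ring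
  omega

theorem Half.conc_good (h : Half adj Z Hd R E F I q N D) (k : ℕ) (hk : 0 < k)
    (hq : 0 < q) (hN : 8 * (q * (k + 2)) ≤ N) {v : V} (hv : v ∈ R)
    (hc : Cr adj Hd F v) (hcon : (inn adj v).card < 2 * (inn adj v ∩ I.biUnion F).card) :
    (∀ i ∈ I, v ∈ F i → k ≤ ((F i).filter (fun y => adj y v ∧ y ∉ Z ∧ y ∉ E)).card) ∧
    ∃ j ∈ I, k ≤ ((F j).filter (fun y => adj y v ∧ y ∉ Z ∧ y ∉ E)).card := by
  have hdeg := h.deg v (Or.inl (disjoint_left.1 h.RZ hv))
  refine ⟨fun i hi hvi => ?_, ?_⟩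
  · have h1 := h.S1 v hv i hvi hc hcon hi
    exact h.good_of i v k 4 (by omega) (hdeg.trans h1) hN hq hk
  · by_contra hno
    push Not at hno
    have h1 : ∀ j ∈ I, 2 * q * (inn adj v ∩ F j).card ≤ (inn adj v).card := by
      intro j hj
      by_contra hlt
      push Not at hlt
      have := h.good_of j v k (2 * q) (by omega) (hdeg.trans hlt.le) hN hq hk
      have := hno j hj
      omega
    have h2 := light_sum F (inn adj v) I (2 * q) q h.Ic.le h1
    have h3 : q * (2 * (inn adj v ∩ I.biUnion F).card) ≤ q * (inn adj v).card := by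
      calc q * (2 * (inn adj v ∩ I.biUnion F).card) = 2 * q * (inn adj v ∩ I.biUnion F).card := by
            ring
        _ ≤ _ := h2
    have h4 := Nat.le_of_mul_le_mul_left h3 hq
    omega

theorem Half.Ele (h : Half adj Z Hd R E F I q N D) (hq : 0 < q) : 16 * E.card ≤ D := by
  have h1 := h.Ecard
  have h2 : E.card ≤ q * E.card := Nat.le_mul_of_pos_left _ hq
  omega

theorem Half.size2 (h : Half adj Z Hd R E F I q N D) (hq : 0 < q) (G : Finset V)
    (hG : 16 * (G.card + 2 * q) ≤ N) {u : V} (hu : u ∈ Hd) (hun : ∀ j, u ∉ F j) :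
    D ≤ 4 * ((inn adj u \ E) \ (G ∪ I.biUnion F)).card := by
  have h1 := cnt (inn adj u) E G (I.biUnion F)
  have h2 := card_inter_biUnion_le (I := I) (F := F) (inn adj u) 2 (fun i _ => h.late u hu hun i)
  rw [h.Ic] at h2
  have h3 := h.deg u (Or.inr hu)
  have h4 := h.Ele hq
  have h5 := h.ND
  omega

theorem Half.size3 (h : Half adj Z Hd R E F I q N D) (hq : 0 < q) (G : Finset V)
    (hG : 16 * (G.card + 2 * q) ≤ N) {v : V} (hv : v ∈ R)
    (hcon : ¬ (inn adj v).card < 2 * (inn adj v ∩ I.biUnion F).card) :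
    D ≤ 4 * ((inn adj v \ E) \ (G ∪ I.biUnion F)).card := by
  have h1 := cnt (inn adj v) E G (I.biUnion F)
  have h3 := h.deg v (Or.inl (disjoint_left.1 h.RZ hv))
  have h4 := h.Ele hq
  have h5 := h.ND
  omega

/-- a vertex with few in-neighbours among the unused heads of a colour -/
theorem Half.crit (h : Half adj Z Hd R E F I q N D) {k : ℕ} {v : V} (hv : v ∉ Z)
    (T : Finset V) (hT : ∀ u ∈ T, u ∈ Hd ∧ ∀ j, u ∉ F j) (hTc : K + k ≤ T.card)
    (hlt : (T.filter (fun u => adj u v)).card < k) :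
    Cr adj Hd F v ∧ K < (Hd.filter (fun u => adj v u)).card := by
  have h1 : T.filter (fun u => ¬ adj u v) ⊆ Hd.filter (fun u => adj v u) := by
    intro u hu
    obtain ⟨hu1, hu2⟩ := mem_filter.1 hu
    have hne : u ≠ v := by
      rintro rfl
      exact hv (h.HdZ (hT u hu1).1)
    refine mem_filter.2 ⟨(hT u hu1).1, ?_⟩
    rcases h.tour.total u v hne with h2 | h2
    · exact absurd h2 hu2
    · exact h2
  have h2 := card_filter_add_card_filter_not (s := T) (fun u => adj u v)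
  have h3 := card_le_card h1
  have h4 : K < (Hd.filter (fun u => adj v u)).card := by omega
  refine ⟨?_, h4⟩
  obtain ⟨u, hu⟩ : (T.filter (fun u => ¬ adj u v)).Nonempty := by
    rw [← card_pos]; omega
  exact ⟨u, (hT u (mem_filter.1 hu).1).1, (hT u (mem_filter.1 hu).1).2,
    (mem_filter.1 (h1 hu)).2⟩

/-- a vertex dominating more than `K` heads dominates an unused one -/
theorem Half.cr_of (h : Half adj Z Hd R E F I q N D) {v : V}
    (hv : K < (Hd.filter (fun u => adj v u)).card) : Cr adj Hd F v := by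
  by_contra hno
  have h1 : Hd.filter (fun u => adj v u) ⊆ Hd.filter (fun u => ∃ j, u ∈ F j) := by
    intro u hu
    obtain ⟨hu1, hu2⟩ := mem_filter.1 hu
    refine mem_filter.2 ⟨hu1, ?_⟩
    by_contra hn
    push Not at hn
    exact hno ⟨u, hu1, hn, hu2⟩
  have h2 := card_le_card h1
  have h3 := h.used
  omega

end

end Pool.Agent.H159TP
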