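import Pool.Agent.H159TP.Final

/-!
Private neighbours by Hall's theorem; the final colouring.
-/

set_option autoImplicit false

namespace Pool.Agent.H159TP

open Finset Classical

theorem card_sum_filter {α β : Type} [Fintype α] [Fintype β] (p : α ⊕ β → Prop) [DecidablePred p] :
    (univ.filter p).card = (univ.filter (fun a => p (.inl a))).card +
      (univ.filter (fun b => p (.inr b))).card := by
  rw [card_filter, card_filter, card_filter, Fintype.sum_sum_type]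

section
variable {V : Type} [Fintype V] {adj : V → V → Prop} {k q t N K : ℕ}
    {X0 Z Hd Tl E1 E2 R SA Y : Finset V} {AA BB YI YO : V → Finset V} {F : Fin K → Finset V}
    {I : Finset (Fin K)} {a b : Fin K → V} {D₁ D₂ : ℕ}
variable (h : Data adj k q t N K X0 Z Hd Tl E1 E2 R SA Y AA BB YI YO F I a b D₁ D₂)
include h

theorem Data.color_exists (g : Fin K → Fin t) (γ : V → Fin t) (x : Fin t → V)
    (hx : Function.Injective x) (hX0 : ∀ v, v ∈ X0 ↔ ∃ i, x i = v)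
    (hγ1 : ∀ i, K + k ≤ ((UU Hd F).filter (fun u => γ u = i)).card)
    (hγ2 : ∀ i, K + k ≤ ((UU Tl F).filter (fun u => γ u = i)).card) :
    ∃ φ : V → Fin t, (∀ i, φ (x i) = i) ∧
      (∀ j ∈ I, ∀ v, (v ∈ AA (a j) ∨ v ∈ BB (b j) ∨ v ∈ F j) → φ v = g j) ∧
      InOK adj Z (UU Hd F) E1 φ k ∧ InOK (fun u v => adj v u) Z (UU Tl F) E2 φ k := by
  obtain ⟨ψ1, a1, a2, a3⟩ := h.psi1 x hx hX0 g γ
  obtain ⟨ψ, b1, b2, b3, b4, b5⟩ := h.psi2 g ψ1
  set B : Finset V := GG adj Z Y Hd Tl R F I ∪ I.biUnion F with hB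
  set Z1 := Z.filter (fun z => (inn adj z ∩ SA).card < 2 * (k * Z.card)) with hZ1
  set Z2 := Z.filter (fun z => (out adj z ∩ SA).card < 2 * (k * Z.card)) with hZ2
  set e1 := E1.filter (fun v => v ∈ R ∧ ¬ (inn adj v).card < 2 * (inn adj v ∩ I.biUnion F).card)
    with he1
  set e2 := E2.filter (fun v => v ∈ R ∧ ¬ (out adj v).card < 2 * (out adj v ∩ I.biUnion F).card)
    with he2
  let C : ((Z1 ⊕ Z2) ⊕ (UU Hd F ⊕ UU Tl F)) ⊕ ((e1 × Fin t) ⊕ (e2 × Fin t)) → Finset V :=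
    Sum.elim (Sum.elim (Sum.elim (fun z => inn adj z.1 \ B) (fun z => out adj z.1 \ B))
      (Sum.elim (fun u => (inn adj u.1 \ E1) \ B) (fun w => (out adj w.1 \ E2) \ B)))
      (Sum.elim (fun p => (inn adj p.1.1 \ E1) \ B) (fun p => (out adj p.1.1 \ E2) \ B))
  let f : ((Z1 ⊕ Z2) ⊕ (UU Hd F ⊕ UU Tl F)) ⊕ ((e1 × Fin t) ⊕ (e2 × Fin t)) → ℕ :=
    Sum.elim (fun _ => N) (Sum.elim (fun _ => D₁) (fun _ => D₂))
  let col : ((Z1 ⊕ Z2) ⊕ (UU Hd F ⊕ UU Tl F)) ⊕ ((e1 × Fin t) ⊕ (e2 × Fin t)) → Fin t :=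
    Sum.elim (Sum.elim (Sum.elim (fun z => ψ z.1) (fun z => ψ z.1))
      (Sum.elim (fun u => ψ u.1) (fun w => ψ w.1)))
      (Sum.elim (fun p => p.2) (fun p => p.2))
  have hUZ : (UU Hd F).card ≤ Z.card :=
    card_le_card fun u hu => h.HdZ (mem_filter.1 hu).1
  have hWZ : (UU Tl F).card ≤ Z.card :=
    card_le_card fun u hu => h.TlZ (mem_filter.1 hu).1
  have hnum := h.num
  have hE1 := h.hI.Ecard
  have hE2 := h.hO.Ecard
  have hND1 := h.hI.ND
  have hND2 := h.hO.ND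
  -- number of demands
  have hcount : ∀ m, N ≤ m → 4 * (k * (univ.filter (fun δ => f δ ≤ m)).card) ≤ m := by
    intro m hm
    have c1 : (univ.filter (fun δ : (Z1 ⊕ Z2) ⊕ (UU Hd F ⊕ UU Tl F) => f (.inl δ) ≤ m)).card ≤
        4 * Z.card := by
      refine (card_filter_le _ _).trans ?_
      rw [card_univ, Fintype.card_sum, Fintype.card_sum, Fintype.card_sum, Fintype.card_coe,
        Fintype.card_coe, Fintype.card_coe, Fintype.card_coe]
      have := card_filter_le Z (fun z => (inn adj z ∩ SA).card < 2 * (k * Z.card))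
      have := card_filter_le Z (fun z => (out adj z ∩ SA).card < 2 * (k * Z.card))
      rw [← hZ1] at *
      rw [← hZ2] at *
      omega
    have c2 : 16 * (k * (univ.filter (fun δ : e1 × Fin t => f (.inr (.inl δ)) ≤ m)).card) ≤ m := by
      by_cases hD : D₁ ≤ m
      · have c3 : (univ.filter (fun δ : e1 × Fin t => f (.inr (.inl δ)) ≤ m)).card ≤ E1.card * t := by
          refine (card_filter_le _ _).trans ?_
          rw [card_univ, Fintype.card_prod, Fintype.card_coe, Fintype.card_fin]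
          exact Nat.mul_le_mul_right _ (card_filter_le _ _)
        calc 16 * (k * (univ.filter (fun δ : e1 × Fin t => f (.inr (.inl δ)) ≤ m)).card) ≤
              16 * (k * (E1.card * t)) := Nat.mul_le_mul_left _ (Nat.mul_le_mul_left _ c3)
          _ = 16 * (q * E1.card) := by rw [h.qdef]; ring
          _ ≤ m := hE1.trans hD
      · have c3 : (univ.filter (fun δ : e1 × Fin t => f (.inr (.inl δ)) ≤ m)) = ∅ :=
          filter_eq_empty_iff.2 fun _ _ => hD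
        rw [c3]
        simp
    have c4 : 16 * (k * (univ.filter (fun δ : e2 × Fin t => f (.inr (.inr δ)) ≤ m)).card) ≤ m := by
      by_cases hD : D₂ ≤ m
      · have c3 : (univ.filter (fun δ : e2 × Fin t => f (.inr (.inr δ)) ≤ m)).card ≤ E2.card * t := by
          refine (card_filter_le _ _).trans ?_
          rw [card_univ, Fintype.card_prod, Fintype.card_coe, Fintype.card_fin]
          exact Nat.mul_le_mul_right _ (card_filter_le _ _)
        calc 16 * (k * (univ.filter (fun δ : e2 × Fin t => f (.inr (.inr δ)) ≤ m)).card) ≤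
              16 * (k * (E2.card * t)) := Nat.mul_le_mul_left _ (Nat.mul_le_mul_left _ c3)
          _ = 16 * (q * E2.card) := by rw [h.qdef]; ring
          _ ≤ m := hE2.trans hD
      · have c3 : (univ.filter (fun δ : e2 × Fin t => f (.inr (.inr δ)) ≤ m)) = ∅ :=
          filter_eq_empty_iff.2 fun _ _ => hD
        rw [c3]
        simp
    have c5 : k * (univ.filter (fun δ : (Z1 ⊕ Z2) ⊕ (UU Hd F ⊕ UU Tl F) => f (.inl δ) ≤ m)).card ≤
        4 * (k * Z.card) := by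
      calc _ ≤ k * (4 * Z.card) := Nat.mul_le_mul_left _ c1
        _ = 4 * (k * Z.card) := by ring
    rw [card_sum_filter (fun δ => f δ ≤ m),
      card_sum_filter (fun δ : (e1 × Fin t) ⊕ (e2 × Fin t) => f (.inr δ) ≤ m)]
    simp only [Nat.mul_add]
    omega
  -- sizes
  have hGc := h.GGc
  have hGc' : 16 * ((GG (fun u v => adj v u) Z Y Tl Hd R F I).card + 2 * q) ≤ N := h.op.GGc
  have hsize : ∀ δ, f δ ≤ 4 * (C δ).card ∧ N ≤ f δ := by
    rintro (((z | z) | (u | w)) | (p | p))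
    · refine ⟨?_, le_refl N⟩
      exact h.size1 z.1 (mem_filter.1 z.2).2
    · refine ⟨?_, le_refl N⟩
      have := h.op.size1 z.1 (mem_filter.1 z.2).2
      rw [GG_op] at this
      exact this
    · refine ⟨?_, le_refl N⟩
      have hu := mem_filter.1 u.2
      exact hND1.trans (h.hI.size2 h.q0 _ hGc hu.1 hu.2)
    · refine ⟨?_, le_refl N⟩
      have hu := mem_filter.1 w.2
      have := h.hO.size2 h.q0 _ hGc' hu.1 hu.2
      rw [GG_op] at this
      exact hND2.trans this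
    · refine ⟨?_, hND1⟩
      have hp := (mem_filter.1 p.1.2).2
      exact h.hI.size3 h.q0 _ hGc hp.1 hp.2
    · refine ⟨?_, hND2⟩
      have hp := (mem_filter.1 p.1.2).2
      have := h.hO.size3 h.q0 _ hGc' hp.1 hp.2
      rw [GG_op] at this
      exact this
  obtain ⟨RR, r1, r2⟩ := hall_demands C f k (by
    intro δ
    obtain ⟨d1, d2⟩ := hsize δ
    have d3 := hcount (f δ) d2
    omega)
  have hRB : ∀ δ, ∀ v ∈ RR δ, v ∉ B := by
    intro δ v hv hvB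
    have hvC := (r1 δ).1 hv
    have : ∀ δ, ∀ v ∈ C δ, v ∉ B := by
      rintro (((z | z) | (u | w)) | (p | p)) v hv
      · exact (mem_sdiff.1 hv).2
      · exact (mem_sdiff.1 hv).2
      · exact (mem_sdiff.1 hv).2
      · exact (mem_sdiff.1 hv).2
      · exact (mem_sdiff.1 hv).2
      · exact (mem_sdiff.1 hv).2
    exact this δ v hvC hvB
  have key : ∀ v, ∃ c : Fin t, (v ∈ B → c = ψ v) ∧ (∀ δ, v ∈ RR δ → c = col δ) := by
    intro v
    by_cases hv : ∃ δ, v ∈ RR δ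
    · obtain ⟨δ, hδ⟩ := hv
      refine ⟨col δ, fun hvB => absurd hvB (hRB δ v hδ), fun δ' hδ' => ?_⟩
      by_cases he : δ = δ'
      · rw [he]
      · exact absurd hδ' (disjoint_left.1 (r2 δ δ' he) hδ)
    · exact ⟨ψ v, fun _ => rfl, fun δ hδ => absurd ⟨δ, hδ⟩ hv⟩
  choose φ hφ using key
  have hφB : ∀ v, v ∈ B → φ v = ψ v := fun v hv => (hφ v).1 hv
  have hφR : ∀ δ, ∀ v ∈ RR δ, φ v = col δ := fun δ v hv => (hφ v).2 δ hv
  have hZB : ∀ v ∈ Z, v ∈ B := fun v hv => by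
    rw [hB]; unfold GG
    simp only [mem_union]
    tauto
  have hYB : ∀ v ∈ Y, v ∈ B := fun v hv => by
    rw [hB]; unfold GG
    simp only [mem_union]
    tauto
  have hpB : ∀ v ∈ I.biUnion F, v ∈ B := fun v hv => mem_union_right _ hv
  have hC1B : ∀ v ∈ CI adj Hd R F I, v ∈ B := fun v hv => by
    rw [hB]; unfold GG
    simp only [mem_union]
    tauto
  have hC2B : ∀ v ∈ CI (fun u v => adj v u) Tl R F I, v ∈ B := fun v hv => by
    rw [hB]; unfold GG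
    simp only [mem_union]
    tauto
  have hφZ : ∀ v ∈ Z, φ v = ψ1 v := fun v hv => (hφB v (hZB v hv)).trans (b1 v (Or.inl hv))
  have hφp : ∀ v ∈ I.biUnion F, φ v = ψ1 v := fun v hv =>
    (hφB v (hpB v hv)).trans (b1 v (Or.inr hv))
  have hnB : ∀ v, v ∉ B → v ∉ Z := fun v hv hvZ => hv (hZB v hvZ)
  have hunit : ∀ j ∈ I, ∀ v, (v ∈ AA (a j) ∨ v ∈ BB (b j) ∨ v ∈ F j) → φ v = g j := by
    intro j hj v hv
    obtain ⟨h1, h2, -⟩ := h.ends j
    rw [← a2 j hj v hv]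
    rcases hv with hv | hv | hv
    · exact hφZ v (h.core.AAZ _ h1 hv)
    · exact hφZ v (h.core.BBZ _ h2 hv)
    · exact hφp v (mem_biUnion.2 ⟨j, hj, hv⟩)
  have hφU : ∀ u, (u ∈ Hd ∨ u ∈ Tl) → (∀ j, u ∉ F j) → φ u = γ u := by
    intro u hu hn
    rw [← a3 u hu hn]
    rcases hu with hu | hu
    · exact hφZ u (h.HdZ hu)
    · exact hφZ u (h.TlZ hu)
  refine ⟨φ, fun i => ?_, hunit, ?_, ?_⟩
  · rw [hφZ (x i) (h.core.X0Z ((hX0 _).2 ⟨i, rfl⟩)), a1]
  · refine h.inok g φ (fun j hj v hv => hunit j hj v (Or.inr (Or.inr hv))) ?_ ?_ ?_ ?_ ?_ ?_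
    · intro z hz y hy
      rw [hφB y (hYB y ((h.Ydef y).2 (Or.inl ⟨z, hz, hy⟩))), b2 z hz y hy, hφZ z hz]
    · intro v hv hp
      obtain ⟨j, hj, h1, h2⟩ := b4 v hv hp
      exact ⟨j, hj, (hφB v (hC1B v hv)).trans h1, h2⟩
    · intro z hz hlt
      let δ : ((Z1 ⊕ Z2) ⊕ (UU Hd F ⊕ UU Tl F)) ⊕ ((e1 × Fin t) ⊕ (e2 × Fin t)) :=
        .inl (.inl (.inl ⟨z, mem_filter.2 ⟨hz, hlt⟩⟩))
      refine ⟨RR δ, (r1 δ).2.ge, fun y hy => ?_⟩
      have hyC : y ∈ inn adj z \ B := (r1 δ).1 hy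
      rw [mem_sdiff, mem_inn] at hyC
      exact ⟨hyC.1, hnB y hyC.2, (hφR δ y hy).trans (hφB z (hZB z hz)).symm⟩
    · intro u hu
      let δ : ((Z1 ⊕ Z2) ⊕ (UU Hd F ⊕ UU Tl F)) ⊕ ((e1 × Fin t) ⊕ (e2 × Fin t)) :=
        .inl (.inr (.inl ⟨u, hu⟩))
      refine ⟨RR δ, (r1 δ).2.ge, fun y hy => ?_⟩
      have hyC : y ∈ (inn adj u \ E1) \ B := (r1 δ).1 hy
      rw [mem_sdiff, mem_sdiff, mem_inn] at hyC
      exact ⟨hyC.1.1, hnB y hyC.2, hyC.1.2, (hφR δ y hy).trans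
        (hφB u (hZB u (h.HdZ (mem_filter.1 hu).1))).symm⟩
    · intro v hv hvR hcon
      let δ : ((Z1 ⊕ Z2) ⊕ (UU Hd F ⊕ UU Tl F)) ⊕ ((e1 × Fin t) ⊕ (e2 × Fin t)) :=
        .inr (.inl (⟨v, mem_filter.2 ⟨hv, hvR, hcon⟩⟩, φ v))
      refine ⟨RR δ, (r1 δ).2.ge, fun y hy => ?_⟩
      have hyC : y ∈ (inn adj v \ E1) \ B := (r1 δ).1 hy
      rw [mem_sdiff, mem_sdiff, mem_inn] at hyC
      exact ⟨hyC.1.1, hnB y hyC.2, hyC.1.2, hφR δ y hy⟩
    · intro i
      refine (hγ1 i).trans (card_le_card fun u hu => ?_)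
      obtain ⟨h1, h2⟩ := mem_filter.1 hu
      obtain ⟨h3, h4⟩ := mem_filter.1 h1
      exact mem_filter.2 ⟨h1, by rw [hφU u (Or.inl h3) h4, h2]⟩
  · refine h.op.inok g φ (fun j hj v hv => hunit j hj v (Or.inr (Or.inr hv))) ?_ ?_ ?_ ?_ ?_ ?_
    · intro z hz y hy
      rw [hφB y (hYB y ((h.Ydef y).2 (Or.inr ⟨z, hz, hy⟩))), b3 z hz y hy, hφZ z hz]
    · intro v hv hp
      obtain ⟨j, hj, h1, h2⟩ := b5 v hv hp
      exact ⟨j, hj, (hφB v (hC2B v hv)).trans h1, h2⟩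
    · intro z hz hlt
      let δ : ((Z1 ⊕ Z2) ⊕ (UU Hd F ⊕ UU Tl F)) ⊕ ((e1 × Fin t) ⊕ (e2 × Fin t)) :=
        .inl (.inl (.inr ⟨z, mem_filter.2 ⟨hz, hlt⟩⟩))
      refine ⟨RR δ, (r1 δ).2.ge, fun y hy => ?_⟩
      have hyC : y ∈ out adj z \ B := (r1 δ).1 hy
      rw [mem_sdiff, mem_out] at hyC
      exact ⟨hyC.1, hnB y hyC.2, (hφR δ y hy).trans (hφB z (hZB z hz)).symm⟩
    · intro u hu
      let δ : ((Z1 ⊕ Z2) ⊕ (UU Hd F ⊕ UU Tl F)) ⊕ ((e1 × Fin t) ⊕ (e2 × Fin t)) :=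
        .inl (.inr (.inr ⟨u, hu⟩))
      refine ⟨RR δ, (r1 δ).2.ge, fun y hy => ?_⟩
      have hyC : y ∈ (out adj u \ E2) \ B := (r1 δ).1 hy
      rw [mem_sdiff, mem_sdiff, mem_out] at hyC
      exact ⟨hyC.1.1, hnB y hyC.2, hyC.1.2, (hφR δ y hy).trans
        (hφB u (hZB u (h.TlZ (mem_filter.1 hu).1))).symm⟩
    · intro v hv hvR hcon
      let δ : ((Z1 ⊕ Z2) ⊕ (UU Hd F ⊕ UU Tl F)) ⊕ ((e1 × Fin t) ⊕ (e2 × Fin t)) :=
        .inr (.inr (⟨v, mem_filter.2 ⟨hv, hvR, hcon⟩⟩, φ v))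
      refine ⟨RR δ, (r1 δ).2.ge, fun y hy => ?_⟩
      have hyC : y ∈ (out adj v \ E2) \ B := (r1 δ).1 hy
      rw [mem_sdiff, mem_sdiff, mem_out] at hyC
      exact ⟨hyC.1.1, hnB y hyC.2, hyC.1.2, hφR δ y hy⟩
    · intro i
      refine (hγ2 i).trans (card_le_card fun u hu => ?_)
      obtain ⟨h1, h2⟩ := mem_filter.1 hu
      obtain ⟨h3, h4⟩ := mem_filter.1 h1
      exact mem_filter.2 ⟨h1, by rw [hφU u (Or.inr h3) h4, h2]⟩

end

end Pool.Agent.H159TP
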