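import Pool.Agent.H159TP.Hall

/-!
The main theorem.
-/

set_option autoImplicit false

namespace Pool.Agent.H159TP

open Finset Classical

theorem two_pow_bound (q : ℕ) : q ^ 4 * 1024 ≤ 2 ^ (10 + 4 * q) := by
  have h1 : q ≤ 2 ^ q := Nat.lt_two_pow_self.le
  calc q ^ 4 * 1024 ≤ (2 ^ q) ^ 4 * 1024 := Nat.mul_le_mul_right _ (Nat.pow_le_pow_left h1 4)
    _ = 2 ^ (10 + 4 * q) := by rw [← pow_mul, pow_add, mul_comm q 4]; norm_num [mul_comm]

theorem main {V : Type} [Fintype V] {adj : V → V → Prop} (h : IsTournament adj) (k t n : ℕ)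
    (hk : 1 ≤ k) (ht : 1 ≤ t) (hn : 140000 * k ^ 4 * t ^ 4 ≤ n) (hstr : KStrong adj n univ)
    (x : Fin t → V) (hx : Function.Injective x) :
    ∃ W : Fin t → Finset V, (∀ i, x i ∈ W i) ∧ (∀ i, KStrong adj k (W i)) ∧
      (∀ i j, i ≠ j → Disjoint (W i) (W j)) ∧ ∀ v, ∃ i, v ∈ W i := by
  -- numbers
  set q := k * t with hq
  have hq1 : 1 ≤ q := Nat.mul_pos hk ht
  have hkq : k ≤ q := Nat.le_mul_of_pos_right _ ht
  have htq : t ≤ q := Nat.le_mul_of_pos_left _ hk
  set K := q + q * (8 * q) + q * (16 * q + 1) with hK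
  set M := K + (K + k) * t with hM
  set c := 10 + 4 * q with hc
  have hqq : q ≤ q ^ 2 := Nat.le_self_pow (by norm_num) q
  have hK26 : K ≤ 26 * q ^ 2 := by
    have : K = 24 * q ^ 2 + 2 * q := by rw [hK]; ring
    omega
  have hM53 : M ≤ 53 * (q ^ 2 * t) := by
    have h1 : (K + k) * t ≤ 27 * q ^ 2 * t := Nat.mul_le_mul_right _ (by omega)
    have h2 : q ^ 2 ≤ q ^ 2 * t := Nat.le_mul_of_pos_right _ ht
    have h3 : 27 * q ^ 2 * t = 27 * (q ^ 2 * t) := by ring
    omega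
  have hc15 : c + 1 ≤ 15 * q := by omega
  have hMc : M * (c + 1) ≤ 795 * (q ^ 3 * t) := by
    calc M * (c + 1) ≤ 53 * (q ^ 2 * t) * (15 * q) := Nat.mul_le_mul hM53 hc15
      _ = 795 * (q ^ 3 * t) := by ring
  have h23 : q ^ 2 * t ≤ q ^ 3 * t :=
    Nat.mul_le_mul_right _ (Nat.pow_le_pow_right hq1 (by norm_num))
  have ht3 : t ≤ q ^ 3 * t := Nat.le_mul_of_pos_left _ (Nat.pow_pos hq1)
  have hsum : k * (t + 2 * M + 2 * (M * (c + 1))) ≤ 1697 * (k * (q ^ 3 * t)) := by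
    calc k * (t + 2 * M + 2 * (M * (c + 1))) ≤ k * (1697 * (q ^ 3 * t)) :=
          Nat.mul_le_mul_left _ (by omega)
      _ = _ := by ring
  have hP : k * (q ^ 3 * t) = k ^ 4 * t ^ 4 := by rw [hq]; ring
  have hKP : q ^ 2 ≤ k * (q ^ 3 * t) := by
    calc q ^ 2 ≤ q ^ 3 := Nat.pow_le_pow_right hq1 (by norm_num)
      _ ≤ q ^ 3 * t := Nat.le_mul_of_pos_right _ ht
      _ ≤ k * (q ^ 3 * t) := Nat.le_mul_of_pos_left _ hk
  have hn' : 140000 * (k * (q ^ 3 * t)) ≤ n := by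
    rw [hP]; calc _ = 140000 * k ^ 4 * t ^ 4 := by ring
      _ ≤ n := hn
  have n3 : 16 * (q * M) ≤ 2 ^ c := by
    have h1 : q * M ≤ 53 * q ^ 4 := by
      calc q * M ≤ q * (53 * (q ^ 2 * q)) := Nat.mul_le_mul_left _
            (hM53.trans (Nat.mul_le_mul_left _ (Nat.mul_le_mul_left _ htq)))
        _ = 53 * q ^ 4 := by ring
    have h2 := two_pow_bound q
    rw [← hc] at h2
    omega
  have n4 : 16 * (5 * (k * (t + 2 * M + 2 * (M * (c + 1)))) + 8 * K) ≤ n := by omega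
  have n5 : 8 * (q * (k + 2)) ≤ n := by
    have h1 : q * (k + 2) ≤ 3 * q ^ 2 := by
      calc q * (k + 2) ≤ q * (3 * q) := Nat.mul_le_mul_left _ (by omega)
        _ = 3 * q ^ 2 := by ring
    omega
  -- the data
  obtain ⟨Z, Hd, Tl, E1, E2, R, SA, Y, AA, BB, YI, YO, F, I, a, b, D₁, D₂, hD⟩ :=
    stage2 h (univ.image x) k t q n K M c hk ht hq
      (by rw [card_image_of_injective _ hx, card_univ, Fintype.card_fin]) hstr le_rfl le_rfl n3 n4 n5
  -- auxiliary colourings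
  obtain ⟨g, hg⟩ := exists_split t k ht I (by rw [hD.hI.Ic])
  have hU : (K + k) * t ≤ (UU Hd F).card := by
    have h1 := hD.hI.used
    have h2 := card_filter_add_card_filter_not (s := Hd) (fun u => ∃ j, u ∈ F j)
    have h3 : (Hd.filter (fun u => ¬ ∃ j, u ∈ F j)) = UU Hd F := by
      unfold UU
      simp only [not_exists]
    have h4 := hD.Hdc
    rw [h3] at h2
    omega
  have hU' : (K + k) * t ≤ (UU Tl F).card := by
    have h1 := hD.hO.used
    have h2 := card_filter_add_card_filter_not (s := Tl) (fun u => ∃ j, u ∈ F j)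
    have h3 : (Tl.filter (fun u => ¬ ∃ j, u ∈ F j)) = UU Tl F := by
      unfold UU
      simp only [not_exists]
    have h4 := hD.Tlc
    rw [h3] at h2
    omega
  obtain ⟨γ1, hγ1⟩ := exists_split t (K + k) ht (UU Hd F) hU
  obtain ⟨γ2, hγ2⟩ := exists_split t (K + k) ht (UU Tl F) hU'
  obtain ⟨φ, f1, f2, f3, f4⟩ := hD.color_exists g (fun v => if v ∈ Hd then γ1 v else γ2 v) x hx
    (fun v => by simp) (by
      intro i
      refine (hγ1 i).trans (card_le_card fun u hu => ?_)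
      obtain ⟨h1, h2⟩ := mem_filter.1 hu
      refine mem_filter.2 ⟨h1, ?_⟩
      rw [if_pos (mem_filter.1 h1).1]
      exact h2) (by
      intro i
      refine (hγ2 i).trans (card_le_card fun u hu => ?_)
      obtain ⟨h1, h2⟩ := mem_filter.1 hu
      refine mem_filter.2 ⟨h1, ?_⟩
      rw [if_neg (disjoint_left.1 hD.TH (mem_filter.1 h1).1)]
      exact h2)
  refine ⟨fun i => univ.filter (fun v => φ v = i), fun i => ?_, fun i => ?_, fun i j hij => ?_,
    fun v => ⟨φ v, by simp⟩⟩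
  · simp [f1]
  · refine kstrong_of (κ := Fin K) (φ := φ) hk f3 f4 i (I.filter (fun j => g j = i)) (hg i) a b
      (fun j => AA (a j)) (fun j => BB (b j)) F ?_ ?_ ?_ ?_ ?_ ?_ ?_ ?_ ?_ ?_ _ (by simp)
    · intro j _
      exact hD.core.AAm _ (hD.ends j).1
    · intro j _
      exact hD.core.BBm _ (hD.ends j).2.1
    · intro j _
      exact hD.core.AAh _ (hD.ends j).1
    · intro j _
      exact hD.core.BBh _ (hD.ends j).2.1
    · intro j _ v hv hv'
      exact hD.core.E1d v hv hv' _ (hD.ends j).1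
    · intro j _ v hv hv'
      exact hD.core.E2d v hv hv' _ (hD.ends j).2.1
    · intro j hj v hv
      rw [f2 j (mem_filter.1 hj).1 v hv]
      exact (mem_filter.1 hj).2
    · intro j _ j' _ hjj v hv
      exact hD.unit_disj hjj hv
    · intro j _ he
      exact disjoint_left.1 hD.TH (he ▸ (hD.ends j).2.1) (hD.ends j).1
    · intro j _
      exact (hD.ends j).2.2.2.2.2.2.2
  · rw [disjoint_left]
    intro v hv hv'
    exact hij ((mem_filter.1 hv).2.symm.trans (mem_filter.1 hv').2)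

end Pool.Agent.H159TP
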