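import Pool.Agent.H159TP.Paths

/-!
Families of disjoint paths of minimal total length: no shortcuts.
-/

set_option autoImplicit false

namespace Pool.Agent.H159TP

open Finset Classical

/-- A family of minimal total length. -/
structure IsMin {V : Type} (adj : V → V → Prop) (Tl Hd R : Finset V) {K : ℕ}
    (P : Fin K → List V) : Prop where
  fam : IsFam adj Tl Hd R P
  min : ∀ Q : Fin K → List V, IsFam adj Tl Hd R Q → tot P ≤ tot Q

section
variable {V : Type} {adj : V → V → Prop} {Tl Hd R : Finset V} {K : ℕ} {P : Fin K → List V}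

theorem exists_min (h : ∃ P : Fin K → List V, IsFam adj Tl Hd R P) :
    ∃ P : Fin K → List V, IsMin adj Tl Hd R P := by
  have h' : ∃ n, ∃ P : Fin K → List V, IsFam adj Tl Hd R P ∧ tot P = n := by
    obtain ⟨P, hP⟩ := h
    exact ⟨_, P, hP, rfl⟩
  obtain ⟨P, hP, hn⟩ := Nat.find_spec h'
  refine ⟨P, hP, fun Q hQ => ?_⟩
  rw [hn]
  exact Nat.find_min' h' ⟨Q, hQ, rfl⟩

theorem IsMin.replace (h : IsMin adj Tl Hd R P) (i : Fin K) (l : List V)
    (hl : IsLink adj Tl Hd R l) (hx : ∀ x ∈ l, x ∈ P i ∨ ∀ j, x ∉ P j) :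
    (P i).length ≤ l.length := by
  have hQ : IsFam adj Tl Hd R (Function.update P i l) := by
    refine ⟨fun j => ?_, fun j j' hjj => ?_⟩
    · by_cases hj : j = i
      · subst hj; rw [Function.update_self]; exact hl
      · rw [Function.update_of_ne hj]; exact h.fam.link j
    · have hdis : ∀ j, j ≠ i → List.Disjoint l (P j) := by
        intro j hj x hxl hxj
        rcases hx x hxl with h1 | h1
        · exact h.fam.disj i j (Ne.symm hj) h1 hxj
        · exact h1 j hxj
      by_cases hj : j = i
      · subst hj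
        rw [Function.update_self, Function.update_of_ne (Ne.symm hjj)]
        exact hdis j' (Ne.symm hjj)
      · by_cases hj' : j' = i
        · subst hj'
          rw [Function.update_self, Function.update_of_ne hj]
          exact (hdis j hj).symm
        · rw [Function.update_of_ne hj, Function.update_of_ne hj']
          exact h.fam.disj j j' hjj
  have h1 := h.min _ hQ
  unfold tot at h1
  rw [← add_sum_erase _ _ (mem_univ i), ← add_sum_erase univ (fun j => (Function.update P i l
    j).length) (mem_univ i), Function.update_self] at h1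
  have h2 : ∑ j ∈ univ.erase i, (Function.update P i l j).length =
      ∑ j ∈ univ.erase i, (P j).length := by
    refine sum_congr rfl fun j hj => ?_
    rw [Function.update_of_ne (ne_of_mem_erase hj)]
  rw [h2] at h1
  omega

theorem IsLink.start_shape {l l1 l2 : List V} {x : V} (h : IsLink adj Tl Hd R l)
    (hl : l = l1 ++ x :: l2) (h2 : l2 ≠ []) :
    ∃ b m, l1 ++ [x] = b :: m ∧ b ∈ Tl ∧ ∀ y ∈ m, y ∈ R := by
  obtain ⟨b, m, a, hs, hb, ha, hm⟩ := h.shape
  rw [hl] at hs
  rcases l1 with _ | ⟨c, l1⟩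
  · simp only [List.nil_append, List.cons.injEq] at hs
    exact ⟨x, [], rfl, hs.1 ▸ hb, by simp⟩
  · simp only [List.cons_append, List.cons.injEq] at hs
    obtain ⟨rfl, hs⟩ := hs
    refine ⟨c, l1 ++ [x], rfl, hb, fun y hy => hm y ?_⟩
    obtain ⟨l3, d, rfl⟩ : ∃ l3 d, l2 = l3 ++ [d] := by
      rcases List.eq_nil_or_concat l2 with rfl | ⟨l3, d, rfl⟩
      · exact absurd rfl h2
      · exact ⟨l3, d, by simp⟩
    have h3 : (l1 ++ x :: l3) ++ [d] = m ++ [a] := by rw [← hs]; simp
    have h4 := (List.append_inj' h3 rfl).1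
    rw [← h4]
    simp at hy ⊢
    tauto

theorem IsLink.mem_cases {l : List V} (h : IsLink adj Tl Hd R l) {x : V} (hx : x ∈ l) :
    x ∈ Tl ∨ x ∈ R ∨ x ∈ Hd := by
  obtain ⟨b, m, a, hs, hb, ha, hm⟩ := h.shape
  rw [hs] at hx
  simp only [List.mem_cons, List.mem_append, List.mem_nil_iff, or_false] at hx
  rcases hx with rfl | hx | rfl
  · exact Or.inl hb
  · exact Or.inr (Or.inl (hm _ hx))
  · exact Or.inr (Or.inr ha)

/-- No shortcut to an unused head. -/
theorem IsMin.late (h : IsMin adj Tl Hd R P) {u : V} (hu : u ∈ Hd) (hun : ∀ j, u ∉ P j)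
    {i : Fin K} {l1 l2 : List V} {x : V} (hP : P i = l1 ++ x :: l2) (hxu : adj x u) :
    l2.length ≤ 1 := by
  by_contra hlt
  push Not at hlt
  have hne : l2 ≠ [] := by rintro rfl; simp at hlt
  obtain ⟨b, m, h1, h2, h3⟩ := (h.fam.link i).start_shape hP hne
  have hch : ((l1 ++ [x]) ++ [u]).IsChain adj := by
    rw [List.isChain_append]
    refine ⟨?_, List.isChain_singleton _, ?_⟩
    · exact chain_left (l2 := l2) (h.fam.link i).chain (by rw [hP]; simp)
    · intro y hy z hz
      simp only [List.getLast?_concat, Option.mem_def, Option.some.injEq, List.head?_cons] at hy hz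
      rw [← hy, ← hz]; exact hxu
  have hl : IsLink adj Tl Hd R ((l1 ++ [x]) ++ [u]) :=
    ⟨⟨b, m, u, by rw [h1]; simp, h2, hu, h3⟩, hch⟩
  have h4 := h.replace i _ hl (by
    intro y hy
    rw [List.mem_append] at hy
    rcases hy with hy | hy
    · left
      rw [hP]
      simp at hy ⊢
      tauto
    · right
      rw [List.mem_singleton] at hy
      rw [hy]; exact hun)
  rw [hP] at h4
  simp at h4
  omega

/-- No shortcut through an unused vertex. -/
theorem IsMin.late' (h : IsMin adj Tl Hd R P) {u v : V} (hu : u ∈ Hd) (hun : ∀ j, u ∉ P j)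
    (hv : v ∈ R) (hvn : ∀ j, v ∉ P j) (hvu : adj v u)
    {i : Fin K} {l1 l2 : List V} {x : V} (hP : P i = l1 ++ x :: l2) (hxv : adj x v) :
    l2.length ≤ 2 := by
  by_contra hlt
  push Not at hlt
  have hne : l2 ≠ [] := by rintro rfl; simp at hlt
  obtain ⟨b, m, h1, h2, h3⟩ := (h.fam.link i).start_shape hP hne
  have hch : ((l1 ++ [x]) ++ [v, u]).IsChain adj := by
    rw [List.isChain_append]
    refine ⟨?_, by simpa using hvu, ?_⟩
    · exact chain_left (l2 := l2) (h.fam.link i).chain (by rw [hP]; simp)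
    · intro y hy z hz
      simp only [List.getLast?_concat, Option.mem_def, Option.some.injEq, List.head?_cons] at hy hz
      rw [← hy, ← hz]; exact hxv
  have hl : IsLink adj Tl Hd R ((l1 ++ [x]) ++ [v, u]) :=
    ⟨⟨b, m ++ [v], u, by rw [h1]; simp, h2, hu, by
      intro y hy
      rw [List.mem_append, List.mem_singleton] at hy
      rcases hy with hy | hy
      · exact h3 y hy
      · rw [hy]; exact hv⟩, hch⟩
  have h4 := h.replace i _ hl (by
    intro y hy
    rw [List.mem_append] at hy
    rcases hy with hy | hy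
    · left
      rw [hP]
      simp at hy ⊢
      tauto
    · right
      simp only [List.mem_cons, List.mem_nil_iff, or_false] at hy
      rcases hy with hy | hy
      · rw [hy]; exact hvn
      · rw [hy]; exact hun)
  rw [hP] at h4
  simp at h4
  omega

theorem IsLink.reverse {l : List V} (h : IsLink adj Tl Hd R l) :
    IsLink (fun u v => adj v u) Hd Tl R l.reverse := by
  obtain ⟨b, m, a, hs, hb, ha, hm⟩ := h.shape
  refine ⟨⟨a, m.reverse, b, by rw [hs]; simp, ha, hb, by simpa using hm⟩, ?_⟩
  rw [List.isChain_reverse]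
  exact h.chain

theorem IsFam.reverse (h : IsFam adj Tl Hd R P) :
    IsFam (fun u v => adj v u) Hd Tl R (fun i => (P i).reverse) := by
  refine ⟨fun i => (h.link i).reverse, fun i j hij => ?_⟩
  intro x hx hx'
  rw [List.mem_reverse] at hx hx'
  exact h.disj i j hij hx hx'

theorem IsMin.reverse (h : IsMin adj Tl Hd R P) :
    IsMin (fun u v => adj v u) Hd Tl R (fun i => (P i).reverse) := by
  refine ⟨h.fam.reverse, fun Q hQ => ?_⟩
  have h1 := h.min _ hQ.reverse
  unfold tot at h1 ⊢
  simpa using h1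

/-- No shortcut from an unused tail. -/
theorem IsMin.early (h : IsMin adj Tl Hd R P) {w : V} (hw : w ∈ Tl) (hwn : ∀ j, w ∉ P j)
    {i : Fin K} {l1 l2 : List V} {x : V} (hP : P i = l1 ++ x :: l2) (hwx : adj w x) :
    l1.length ≤ 1 := by
  have h1 := h.reverse.late (i := i) hw (fun j => by simpa using hwn j)
    (l1 := l2.reverse) (l2 := l1.reverse) (x := x) (by rw [hP]; simp) hwx
  simpa using h1

theorem IsMin.early' (h : IsMin adj Tl Hd R P) {w v : V} (hw : w ∈ Tl) (hwn : ∀ j, w ∉ P j)
    (hv : v ∈ R) (hvn : ∀ j, v ∉ P j) (hwv : adj w v)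
    {i : Fin K} {l1 l2 : List V} {x : V} (hP : P i = l1 ++ x :: l2) (hvx : adj v x) :
    l1.length ≤ 2 := by
  have h1 := h.reverse.late' (i := i) hw (fun j => by simpa using hwn j) hv
    (fun j => by simpa using hvn j) hwv
    (l1 := l2.reverse) (l2 := l1.reverse) (x := x) (by rw [hP]; simp) hvx
  simpa using h1

end

end Pool.Agent.H159TP
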