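import Pool.Agent.H159TP.Defs
import Pool.Agent.Helper442.FE.Link

/-!
Families of disjoint paths from tails to heads; families of minimal total length.
-/

set_option autoImplicit false

namespace Pool.Agent.H159TP

open Finset Classical

/-- A path from `Tl` to `Hd` with all inner vertices in `R`. -/
structure IsLink {V : Type} (adj : V → V → Prop) (Tl Hd R : Finset V) (l : List V) : Prop where
  shape : ∃ b m a, l = b :: (m ++ [a]) ∧ b ∈ Tl ∧ a ∈ Hd ∧ ∀ x ∈ m, x ∈ R
  chain : l.IsChain adj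

/-- A family of `K` disjoint paths. -/
structure IsFam {V : Type} (adj : V → V → Prop) (Tl Hd R : Finset V) {K : ℕ}
    (P : Fin K → List V) : Prop where
  link : ∀ i, IsLink adj Tl Hd R (P i)
  disj : ∀ i j, i ≠ j → List.Disjoint (P i) (P j)

/-- total number of vertices -/
def tot {V : Type} {K : ℕ} (P : Fin K → List V) : ℕ := ∑ i, (P i).length

section
variable {V : Type} {adj : V → V → Prop} {Tl Hd R : Finset V}

theorem chain_left {l1 l2 l : List V} (h : l.IsChain adj) (hl : l = l1 ++ l2) :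
    l1.IsChain adj := by
  subst hl
  exact (List.isChain_append.1 h).1

theorem exists_sublink : ∀ (n : ℕ) (l : List V), l.length ≤ n → l.IsChain adj →
    (∀ x ∈ l, x ∈ R ∨ x ∈ Tl ∨ x ∈ Hd) → (∃ b m a, l = b :: (m ++ [a]) ∧ b ∈ Tl ∧ a ∈ Hd) →
    ∃ l', IsLink adj Tl Hd R l' ∧ ∀ x ∈ l', x ∈ l := by
  intro n
  induction n with
  | zero =>
    rintro l hl _ _ ⟨b, m, a, rfl, _⟩
    simp at hl
  | succ n ih =>
    rintro l hl hc hx ⟨b, m, a, rfl, hb, ha⟩
    by_cases hm : ∀ x ∈ m, x ∈ R
    · exact ⟨_, ⟨⟨b, m, a, rfl, hb, ha, hm⟩, hc⟩, fun x hx => hx⟩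
    · push Not at hm
      obtain ⟨x, hxm, hxR⟩ := hm
      obtain ⟨m1, m2, rfl⟩ := List.append_of_mem hxm
      rcases hx x (by simp) with h1 | h1 | h1
      · exact absurd h1 hxR
      · -- start at `x`
        obtain ⟨l', h2, h3⟩ := ih (x :: (m2 ++ [a])) (by simp at hl ⊢; omega)
          (hc.suffix ⟨b :: m1, by simp⟩)
          (fun y hy => hx y (by simp at hy ⊢; tauto)) ⟨x, m2, a, rfl, h1, ha⟩
        exact ⟨l', h2, fun y hy => by have := h3 y hy; simp at this ⊢; tauto⟩
      · -- end at `x`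
        obtain ⟨l', h2, h3⟩ := ih (b :: (m1 ++ [x])) (by simp at hl ⊢; omega)
          (chain_left (l2 := m2 ++ [a]) hc (by simp))
          (fun y hy => hx y (by simp at hy ⊢; tauto)) ⟨b, m1, x, rfl, hb, h1⟩
        exact ⟨l', h2, fun y hy => by have := h3 y hy; simp at this ⊢; tauto⟩

end

section
variable {V : Type} [Fintype V] {adj : V → V → Prop} {Tl Hd R : Finset V}

open Helper442.FE in
theorem exists_fam (K : ℕ) (hTl : K ≤ Tl.card) (hHd : K ≤ Hd.card) (hTH : Disjoint Tl Hd)
    (hcon : ∀ S : Finset V, S.card < K → ∀ b ∈ Tl, b ∉ S → ∀ a ∈ Hd, a ∉ S →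
      Relation.ReflTransGen (fun u v => adj u v ∧ (u ∈ R ∨ u ∈ Tl ∨ u ∈ Hd) ∧
        (v ∈ R ∨ v ∈ Tl ∨ v ∈ Hd) ∧ v ∉ S) b a) :
    ∃ P : Fin K → List V, IsFam adj Tl Hd R P := by
  obtain ⟨X, hX, hXc⟩ := exists_subset_card_eq hTl
  let G : V → V → Prop := fun u v => adj u v ∧ (u ∈ R ∨ u ∈ Tl ∨ u ∈ Hd) ∧
    (v ∈ R ∨ v ∈ Tl ∨ v ∈ Hd)
  have hlk : Lk G (Matroid.freeOn (Hd : Set V)) (X : Set V) := by
    apply lk_of_le_cutv
    intro x y hv
    by_contra hlt
    rw [not_le] at hlt
    unfold cutv at hlt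
    have hrk : rk (Matroid.freeOn (Hd : Set V)) y = ((y ∩ (Hd : Set V)).ncard : ℤ) := by
      rw [← rk_inter_ground, Matroid.freeOn_ground]
      exact rk_indep' _ (Matroid.freeOn_indep_iff.2 Set.inter_subset_right)
    rw [hrk, Set.ncard_coe_finset, hXc] at hlt
    set S : Finset V := (X.filter (· ∉ x)) ∪ (univ.filter (fun v => v ∈ x ∧ v ∉ y)) ∪
      (Hd.filter (· ∈ y)) with hS
    have hSc : S.card < K := by
      have h1 := card_union_le ((X.filter (· ∉ x)) ∪ (univ.filter (fun v => v ∈ x ∧ v ∉ y)))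
        (Hd.filter (· ∈ y))
      have h2 := card_union_le (X.filter (· ∉ x)) (univ.filter (fun v => v ∈ x ∧ v ∉ y))
      have e1 : ((X : Set V) \ x).ncard = (X.filter (· ∉ x)).card := by
        rw [← Set.ncard_coe_finset]
        congr 1
        ext v
        simp
      have e2 : (x \ y).ncard = (univ.filter (fun v => v ∈ x ∧ v ∉ y)).card := by
        rw [← Set.ncard_coe_finset]
        congr 1
        ext v
        simp
      have e3 : (y ∩ (Hd : Set V)).ncard = (Hd.filter (· ∈ y)).card := by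
        rw [← Set.ncard_coe_finset]
        congr 1
        ext v
        simp [and_comm]
      rw [e1, e2, e3] at hlt
      rw [← hS] at h1
      omega
    obtain ⟨b, hbX, hbS⟩ : ∃ b ∈ X, b ∉ S := exists_mem_notMem_of_card_lt_card (by omega)
    obtain ⟨a, haH, haS⟩ : ∃ a ∈ Hd, a ∉ S := exists_mem_notMem_of_card_lt_card (by omega)
    have hnS : ∀ v, v ∈ x → v ∉ S → v ∈ y := by
      intro v hvx hvS
      by_contra hvy
      apply hvS
      rw [hS]
      simp [hvx, hvy]
    have hbx : b ∈ x := by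
      by_contra hbx
      apply hbS
      rw [hS]
      simp [hbX, hbx]
    have hgen : ∀ v, Relation.ReflTransGen (fun u v => adj u v ∧ (u ∈ R ∨ u ∈ Tl ∨ u ∈ Hd) ∧
        (v ∈ R ∨ v ∈ Tl ∨ v ∈ Hd) ∧ v ∉ S) b v → v ∈ y := by
      intro v hbv
      induction hbv with
      | refl => exact hnS b hbx hbS
      | tail _ h1 ih => exact hnS _ (hv _ _ ⟨h1.1, h1.2.1, h1.2.2.1⟩ ih) h1.2.2.2
    have hay := hgen a (hcon S hSc b (hX hbX) hbS a haH haS)
    apply haS
    rw [hS]
    simp [haH, hay]
  obtain ⟨Y, hY, PP, h1, h2, h3, h4⟩ := hlk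
  rw [Matroid.freeOn_indep_iff] at hY
  have hpath : ∀ b ∈ X, ∃ p ∈ PP, p.head? = some b := by
    intro b hb
    have : b ∈ {x | ∃ p ∈ PP, p.head? = some x} := by rw [h3]; exact hb
    exact this
  choose p hp1 hp2 using hpath
  have hsub : ∀ b (hb : b ∈ X), ∃ l', IsLink adj Tl Hd R l' ∧ ∀ x ∈ l', x ∈ p b hb := by
    intro b hb
    obtain ⟨hne, hnd, hch⟩ := h1 _ (hp1 b hb)
    have hlast : ∃ a, (p b hb).getLast? = some a := by
      rcases hh : (p b hb).getLast? with _ | a
      · rw [List.getLast?_eq_none_iff] at hh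
        exact absurd hh hne
      · exact ⟨a, rfl⟩
    obtain ⟨a, ha⟩ := hlast
    have haY : a ∈ (Hd : Set V) := by
      apply hY
      rw [← h4]
      exact ⟨_, hp1 b hb, ha⟩
    have hba : b ≠ a := by
      rintro rfl
      exact disjoint_left.1 hTH (hX hb) haY
    -- shape
    obtain ⟨m, hm⟩ : ∃ m, p b hb = b :: (m ++ [a]) := by
      rcases hpp : p b hb with _ | ⟨c, l⟩
      · exact absurd hpp hne
      · have e1 := hp2 b hb
        rw [hpp] at e1 ha
        simp only [List.head?_cons, Option.some.injEq] at e1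
        subst e1
        rcases List.eq_nil_or_concat l with rfl | ⟨l', d, rfl⟩
        · simp only [List.getLast?_singleton, Option.some.injEq] at ha
          exact absurd ha hba
        · rw [List.concat_eq_append, ← List.cons_append, List.getLast?_concat] at ha
          simp only [Option.some.injEq] at ha
          subst ha
          exact ⟨l', by simp⟩
    have hmemG : ∀ l : List V, l.IsChain G → 2 ≤ l.length → ∀ x ∈ l, x ∈ R ∨ x ∈ Tl ∨ x ∈ Hd := by
      intro l
      induction l with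
      | nil => simp
      | cons c l ih =>
        intro hcl hlen x hx
        rcases l with _ | ⟨d, l⟩
        · simp at hlen
        · rw [List.isChain_cons_cons] at hcl
          rcases List.mem_cons.1 hx with rfl | hx
          · exact hcl.1.2.1
          · rcases l with _ | ⟨e, l⟩
            · rw [List.mem_singleton] at hx
              subst hx
              exact hcl.1.2.2
            · exact ih hcl.2 (by simp) x hx
    refine exists_sublink _ (p b hb) le_rfl (hch.imp fun u v huv => huv.1) ?_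
      ⟨b, m, a, hm, hX hb, haY⟩
    intro x hx
    exact hmemG _ hch (by rw [hm]; simp) x hx
  choose l hl1 hl2 using hsub
  let e : Fin K ≃ X := (Finset.equivFinOfCardEq hXc).symm
  refine ⟨fun i => l (e i).1 (e i).2, fun i => hl1 _ _, ?_⟩
  intro i j hij
  have hne : p (e i).1 (e i).2 ≠ p (e j).1 (e j).2 := by
    intro he
    have h5 := hp2 (e i).1 (e i).2
    rw [he, hp2 (e j).1 (e j).2] at h5
    simp only [Option.some.injEq] at h5
    exact hij (e.injective (Subtype.ext h5.symm))
  have hd := h2 _ (hp1 (e i).1 (e i).2) _ (hp1 (e j).1 (e j).2) hne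
  intro x hx hx'
  exact hd (hl2 _ _ x hx) (hl2 _ _ x hx')

end

end Pool.Agent.H159TP
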