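import Pool.Agent.H159TP.Dom

/-!
Reachability inside a part from its levels.
-/

set_option autoImplicit false

namespace Pool.Agent.H159TP

open Finset Classical

/-- Every vertex has enough in-neighbours of lower level in its own part. -/
structure InOK {V ι : Type} (adj : V → V → Prop) (Z U E : Finset V) (φ : V → ι)
    (k : ℕ) : Prop where
  z : ∀ v ∈ Z, v ∉ U → ∃ S : Finset V, k ≤ S.card ∧ ∀ y ∈ S, adj y v ∧ y ∉ Z ∧ φ y = φ v
  u : ∀ v ∈ U, ∃ S : Finset V, k ≤ S.card ∧ ∀ y ∈ S, adj y v ∧ y ∉ Z ∧ y ∉ E ∧ φ y = φ v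
  e : ∀ v, v ∉ Z → v ∈ E →
    (∃ S : Finset V, k ≤ S.card ∧ ∀ y ∈ S, adj y v ∧ y ∉ Z ∧ y ∉ E ∧ φ y = φ v) ∨
    (∃ S : Finset V, k ≤ S.card ∧ ∀ y ∈ S, adj y v ∧ y ∈ U ∧ φ y = φ v)

theorem exists_of_card {V : Type} {X Y : Finset V} {k : ℕ} (hX : X.card < k) (hY : k ≤ Y.card) :
    ∃ y ∈ Y, y ∉ X := exists_mem_notMem_of_card_lt_card (by omega)

theorem reach {V ι : Type} {adj : V → V → Prop} {Z U E : Finset V} {φ : V → ι} {k : ℕ}
    (h : InOK adj Z U E φ k) (i : ι) (X : Finset V) (hX : X.card < k) (hd : V) (A : Finset V)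
    (hhd : hd ∈ A) (hA1 : ∀ a ∈ A, a ≠ hd → adj hd a) (hA2 : ∀ a ∈ A, φ a = i ∧ a ∉ X)
    (hA3 : ∀ v, v ∉ Z → v ∉ E → ∃ a ∈ A, adj a v) (v : V) (hv : φ v = i) (hvX : v ∉ X) :
    Relation.ReflTransGen (fun a b => adj a b ∧ (φ a = i ∧ a ∉ X) ∧ (φ b = i ∧ b ∉ X)) hd v := by
  have hA : ∀ a ∈ A, Relation.ReflTransGen (fun a b => adj a b ∧ (φ a = i ∧ a ∉ X) ∧
      (φ b = i ∧ b ∉ X)) hd a := by
    intro a ha
    by_cases hne : a = hd
    · rw [hne]
    · exact Relation.ReflTransGen.single ⟨hA1 a ha hne, hA2 hd hhd, hA2 a ha⟩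
  have h0 : ∀ v, φ v = i → v ∉ X → v ∉ Z → v ∉ E →
      Relation.ReflTransGen (fun a b => adj a b ∧ (φ a = i ∧ a ∉ X) ∧
      (φ b = i ∧ b ∉ X)) hd v := by
    intro v hv hvX hvZ hvE
    obtain ⟨a, ha, hav⟩ := hA3 v hvZ hvE
    exact (hA a ha).tail ⟨hav, hA2 a ha, hv, hvX⟩
  have h1 : ∀ v, φ v = i → v ∉ X →
      (∃ S : Finset V, k ≤ S.card ∧ ∀ y ∈ S, adj y v ∧ y ∉ Z ∧ y ∉ E ∧ φ y = φ v) →
      Relation.ReflTransGen (fun a b => adj a b ∧ (φ a = i ∧ a ∉ X) ∧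
      (φ b = i ∧ b ∉ X)) hd v := by
    rintro v hv hvX ⟨S, hk, hS⟩
    obtain ⟨y, hy, hyX⟩ := exists_of_card hX hk
    obtain ⟨k1, k2, k3, k4⟩ := hS y hy
    rw [hv] at k4
    exact (h0 y k4 hyX k2 k3).tail ⟨k1, ⟨k4, hyX⟩, hv, hvX⟩
  have h2 : ∀ v, φ v = i → v ∉ X → v ∉ Z →
      Relation.ReflTransGen (fun a b => adj a b ∧ (φ a = i ∧ a ∉ X) ∧
      (φ b = i ∧ b ∉ X)) hd v := by
    intro v hv hvX hvZ
    by_cases hvE : v ∈ E
    · rcases h.e v hvZ hvE with hk | ⟨S, hk, hS⟩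
      · exact h1 v hv hvX hk
      · obtain ⟨y, hy, hyX⟩ := exists_of_card hX hk
        obtain ⟨k1, k2, k3⟩ := hS y hy
        rw [hv] at k3
        exact (h1 y k3 hyX (h.u y k2)).tail ⟨k1, ⟨k3, hyX⟩, hv, hvX⟩
    · exact h0 v hv hvX hvZ hvE
  by_cases hvZ : v ∈ Z
  · by_cases hvU : v ∈ U
    · exact h1 v hv hvX (h.u v hvU)
    · obtain ⟨S, hk, hS⟩ := h.z v hvZ hvU
      obtain ⟨y, hy, hyX⟩ := exists_of_card hX hk
      obtain ⟨k1, k2, k3⟩ := hS y hy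
      rw [hv] at k3
      exact (h2 y k3 hyX k2).tail ⟨k1, ⟨k3, hyX⟩, hv, hvX⟩
  · exact h2 v hv hvX hvZ

theorem rt_mono {α : Type} {r p : α → α → Prop} (h : ∀ a b, r a b → p a b) {a b : α}
    (hab : Relation.ReflTransGen r a b) : Relation.ReflTransGen p a b := by
  induction hab with
  | refl => exact Relation.ReflTransGen.refl
  | tail _ h1 ih => exact ih.tail (h _ _ h1)

theorem rt_swap {α : Type} {r : α → α → Prop} {a b : α}
    (hab : Relation.ReflTransGen r a b) : Relation.ReflTransGen (fun x y => r y x) b a := by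
  induction hab with
  | refl => exact Relation.ReflTransGen.refl
  | tail _ h1 ih => exact Relation.ReflTransGen.head h1 ih

/-- The final criterion. -/
theorem kstrong_of {V ι κ : Type} {adj : V → V → Prop}
    {Z U W E1 E2 : Finset V} {φ : V → ι} {k : ℕ} (hk : 0 < k)
    (h1 : InOK adj Z U E1 φ k) (h2 : InOK (fun u v => adj v u) Z W E2 φ k) (i : ι)
    (J : Finset κ) (hJ : k ≤ J.card) (hd tl : κ → V) (A B C : κ → Finset V)
    (hdA : ∀ j ∈ J, hd j ∈ A j) (tlB : ∀ j ∈ J, tl j ∈ B j)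
    (hA : ∀ j ∈ J, ∀ a ∈ A j, a ≠ hd j → adj (hd j) a)
    (hB : ∀ j ∈ J, ∀ b ∈ B j, b ≠ tl j → adj b (tl j))
    (hA3 : ∀ j ∈ J, ∀ v, v ∉ Z → v ∉ E1 → ∃ a ∈ A j, adj a v)
    (hB3 : ∀ j ∈ J, ∀ v, v ∉ Z → v ∉ E2 → ∃ b ∈ B j, adj v b)
    (hcol : ∀ j ∈ J, ∀ v, v ∈ A j ∨ v ∈ B j ∨ v ∈ C j → φ v = i)
    (hdis : ∀ j ∈ J, ∀ j' ∈ J, j ≠ j' → ∀ v, (v ∈ A j ∨ v ∈ B j ∨ v ∈ C j) →
      ¬ (v ∈ A j' ∨ v ∈ B j' ∨ v ∈ C j'))
    (hne : ∀ j ∈ J, hd j ≠ tl j)
    (hpath : ∀ j ∈ J, Relation.ReflTransGen (fun a b => adj a b ∧ a ∈ C j ∧ b ∈ C j) (tl j) (hd j))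
    (T : Finset V) (hT : ∀ v, v ∈ T ↔ φ v = i) :
    KStrong adj k T := by
  refine ⟨?_, ?_⟩
  · -- size
    have hsub : (J.image hd) ∪ (J.image tl) ⊆ T := by
      intro v hv
      rw [hT]
      rcases mem_union.1 hv with hv | hv
      · obtain ⟨j, hj, rfl⟩ := mem_image.1 hv
        exact hcol j hj _ (Or.inl (hdA j hj))
      · obtain ⟨j, hj, rfl⟩ := mem_image.1 hv
        exact hcol j hj _ (Or.inr (Or.inl (tlB j hj)))
    have hc := card_le_card hsub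
    have hdj : Disjoint (J.image hd) (J.image tl) := by
      rw [disjoint_left]
      intro v hv hv'
      obtain ⟨j, hj, rfl⟩ := mem_image.1 hv
      obtain ⟨j', hj', he⟩ := mem_image.1 hv'
      by_cases hjj : j = j'
      · subst hjj
        exact hne j hj he.symm
      · exact hdis j hj j' hj' hjj _ (Or.inl (hdA j hj)) (Or.inr (Or.inl (he ▸ tlB j' hj')))
    rw [card_union_of_disjoint hdj] at hc
    have hi1 : (J.image hd).card = J.card := by
      apply card_image_of_injOn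
      intro j hj j' hj' he
      by_contra hjj
      exact hdis j hj j' hj' hjj _ (Or.inl (hdA j hj)) (Or.inl (by
        have := hdA j' hj'
        rwa [← show hd j = hd j' from he] at this))
    have hi2 : (J.image tl).card = J.card := by
      apply card_image_of_injOn
      intro j hj j' hj' he
      by_contra hjj
      exact hdis j hj j' hj' hjj _ (Or.inr (Or.inl (tlB j hj))) (Or.inr (Or.inl (by
        have := tlB j' hj'
        rwa [← show tl j = tl j' from he] at this)))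
    omega
  · intro X _ hX
    -- an intact unit
    obtain ⟨j, hj, hjX⟩ : ∃ j ∈ J, ∀ v, (v ∈ A j ∨ v ∈ B j ∨ v ∈ C j) → v ∉ X := by
      by_contra hno
      push Not at hno
      have hno' : ∀ j, ∃ v, j ∈ J → (v ∈ A j ∨ v ∈ B j ∨ v ∈ C j) ∧ v ∈ X := by
        intro j
        by_cases hj : j ∈ J
        · obtain ⟨v, hv⟩ := hno j hj
          exact ⟨v, fun _ => hv⟩
        · exact ⟨hd j, fun hj' => absurd hj' hj⟩
      choose f hf using hno'
      have hf1 : ∀ j ∈ J, (f j ∈ A j ∨ f j ∈ B j ∨ f j ∈ C j) := fun j hj => (hf j hj).1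
      have hf2 : ∀ j ∈ J, f j ∈ X := fun j hj => (hf j hj).2
      have : (J.image f).card ≤ X.card := by
        refine card_le_card ?_
        intro v hv
        obtain ⟨j, hj, rfl⟩ := mem_image.1 hv
        exact hf2 j hj
      rw [card_image_of_injOn] at this
      · omega
      · intro j hj j' hj' he
        by_contra hjj
        exact hdis j hj j' hj' hjj _ (hf1 j hj) (by
          have := hf1 j' hj'
          rwa [← show f j = f j' from he] at this)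
    have hin : ∀ v, φ v = i → v ∉ X → Relation.ReflTransGen
        (fun a b => adj a b ∧ (φ a = i ∧ a ∉ X) ∧ (φ b = i ∧ b ∉ X)) (hd j) v := fun v hv hvX =>
      reach h1 i X hX (hd j) (A j) (hdA j hj) (hA j hj)
        (fun a ha => ⟨hcol j hj a (Or.inl ha), hjX a (Or.inl ha)⟩) (hA3 j hj) v hv hvX
    have hout : ∀ v, φ v = i → v ∉ X → Relation.ReflTransGen
        (fun a b => adj a b ∧ (φ a = i ∧ a ∉ X) ∧ (φ b = i ∧ b ∉ X)) v (tl j) := by
      intro v hv hvX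
      have h3 := reach h2 i X hX (tl j) (B j) (tlB j hj) (hB j hj)
        (fun a ha => ⟨hcol j hj a (Or.inr (Or.inl ha)), hjX a (Or.inr (Or.inl ha))⟩)
        (hB3 j hj) v hv hvX
      exact rt_mono (fun a b hab => ⟨hab.1, hab.2.2, hab.2.1⟩) (rt_swap h3)
    have hmid : Relation.ReflTransGen
        (fun a b => adj a b ∧ (φ a = i ∧ a ∉ X) ∧ (φ b = i ∧ b ∉ X)) (tl j) (hd j) :=
      rt_mono (fun a b hab => ⟨hab.1,
        ⟨hcol j hj a (Or.inr (Or.inr hab.2.1)), hjX a (Or.inr (Or.inr hab.2.1))⟩,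
        ⟨hcol j hj b (Or.inr (Or.inr hab.2.2)), hjX b (Or.inr (Or.inr hab.2.2))⟩⟩) (hpath j hj)
    intro v hv w hw
    rw [mem_sdiff, hT] at hv hw
    have h5 := ((hout v hv.1 hv.2).trans hmid).trans (hin w hw.1 hw.2)
    refine rt_mono (fun a b hab => ⟨hab.1, ?_, ?_⟩) h5
    · exact mem_sdiff.2 ⟨(hT _).2 hab.2.1.1, hab.2.1.2⟩
    · exact mem_sdiff.2 ⟨(hT _).2 hab.2.2.1, hab.2.2.2⟩

end Pool.Agent.H159TP
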