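import Pool.Agent.H159TP.Comb

/-!
Reserved neighbours; splitting a set into large classes.
-/

set_option autoImplicit false

namespace Pool.Agent.H159TP

open Finset Classical

theorem exists_split {V : Type} (t m : ℕ) (ht : 0 < t) (U : Finset V) (h : m * t ≤ U.card) :
    ∃ γ : V → Fin t, ∀ i, m ≤ (U.filter (fun v => γ v = i)).card := by
  obtain ⟨R, h1, h2⟩ := hall_demands (Δ := Fin t) (fun _ => U) (fun _ => 0) m (by
    intro i
    simpa using h)
  have h3 : ∀ v, ∃ c : Fin t, ∀ i, v ∈ R i → c = i := by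
    intro v
    by_cases hv : ∃ i, v ∈ R i
    · obtain ⟨i, hi⟩ := hv
      refine ⟨i, fun j hj => ?_⟩
      by_contra hij
      exact disjoint_left.1 (h2 i j hij) hi hj
    · exact ⟨⟨0, ht⟩, fun i hi => absurd ⟨i, hi⟩ hv⟩
  choose γ hγ using h3
  refine ⟨γ, fun i => ?_⟩
  rw [← (h1 i).2]
  refine card_le_card fun v hv => ?_
  exact mem_filter.2 ⟨(h1 i).1 hv, hγ v i hv⟩

theorem reserve {V : Type} (Z SA : Finset V) (k : ℕ) (f g : V → Finset V) :
    ∃ YI YO : V → Finset V, (∀ z ∈ Z, YI z ⊆ f z ∩ SA) ∧ (∀ z ∈ Z, YO z ⊆ g z ∩ SA) ∧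
      (∀ z ∈ Z, (YI z).card = k ∨ (f z ∩ SA).card < 2 * (k * Z.card)) ∧
      (∀ z ∈ Z, (YO z).card = k ∨ (g z ∩ SA).card < 2 * (k * Z.card)) ∧
      (∀ z, (YI z).card ≤ k) ∧ (∀ z, (YO z).card ≤ k) ∧
      (∀ z z', z ≠ z' → Disjoint (YI z) (YI z')) ∧ (∀ z z', z ≠ z' → Disjoint (YO z) (YO z')) ∧
      ∀ z z', Disjoint (YI z) (YO z') := by
  let Z1 := Z.filter (fun z => 2 * (k * Z.card) ≤ (f z ∩ SA).card)
  let Z2 := Z.filter (fun z => 2 * (k * Z.card) ≤ (g z ∩ SA).card)
  obtain ⟨R, h1, h2⟩ := hall_demands (Δ := Z1 ⊕ Z2)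
    (Sum.elim (fun z => f z.1 ∩ SA) (fun z => g z.1 ∩ SA)) (fun _ => 0) k (by
    have hc : Fintype.card (Z1 ⊕ Z2) ≤ 2 * Z.card := by
      rw [Fintype.card_sum, Fintype.card_coe, Fintype.card_coe]
      have := card_filter_le Z (fun z => 2 * (k * Z.card) ≤ (f z ∩ SA).card)
      have := card_filter_le Z (fun z => 2 * (k * Z.card) ≤ (g z ∩ SA).card)
      show (Z.filter (fun z => 2 * (k * Z.card) ≤ (f z ∩ SA).card)).card +
        (Z.filter (fun z => 2 * (k * Z.card) ≤ (g z ∩ SA).card)).card ≤ 2 * Z.card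
      omega
    have hk : k * Fintype.card (Z1 ⊕ Z2) ≤ 2 * (k * Z.card) := by
      calc k * Fintype.card (Z1 ⊕ Z2) ≤ k * (2 * Z.card) := Nat.mul_le_mul_left _ hc
        _ = 2 * (k * Z.card) := by ring
    rintro (z | z)
    · have h := (mem_filter.1 z.2).2
      simp only [le_refl, filter_true, Sum.elim_inl, card_univ]
      exact hk.trans h
    · have h := (mem_filter.1 z.2).2
      simp only [le_refl, filter_true, Sum.elim_inr, card_univ]
      exact hk.trans h)
  refine ⟨fun z => if h : z ∈ Z1 then R (.inl ⟨z, h⟩) else ∅,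
    fun z => if h : z ∈ Z2 then R (.inr ⟨z, h⟩) else ∅, ?_, ?_, ?_, ?_, ?_, ?_, ?_, ?_, ?_⟩
  · intro z _
    by_cases h : z ∈ Z1
    · simp only [h, dif_pos]
      exact (h1 (.inl ⟨z, h⟩)).1
    · simp [h]
  · intro z _
    by_cases h : z ∈ Z2
    · simp only [h, dif_pos]
      exact (h1 (.inr ⟨z, h⟩)).1
    · simp [h]
  · intro z hz
    by_cases h : z ∈ Z1
    · simp only [h, dif_pos]
      exact Or.inl (h1 (.inl ⟨z, h⟩)).2
    · right
      by_contra hlt
      push Not at hlt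
      exact h (mem_filter.2 ⟨hz, hlt⟩)
  · intro z hz
    by_cases h : z ∈ Z2
    · simp only [h, dif_pos]
      exact Or.inl (h1 (.inr ⟨z, h⟩)).2
    · right
      by_contra hlt
      push Not at hlt
      exact h (mem_filter.2 ⟨hz, hlt⟩)
  · intro z
    by_cases h : z ∈ Z1
    · simp only [h, dif_pos]
      exact (h1 (.inl ⟨z, h⟩)).2.le
    · simp [h]
  · intro z
    by_cases h : z ∈ Z2
    · simp only [h, dif_pos]
      exact (h1 (.inr ⟨z, h⟩)).2.le
    · simp [h]
  · intro z z' hne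
    by_cases h : z ∈ Z1
    · by_cases h' : z' ∈ Z1
      · simp only [h, h', dif_pos]
        exact h2 _ _ (by simpa using hne)
      · simp [h']
    · simp [h]
  · intro z z' hne
    by_cases h : z ∈ Z2
    · by_cases h' : z' ∈ Z2
      · simp only [h, h', dif_pos]
        exact h2 _ _ (by simpa using hne)
      · simp [h']
    · simp [h]
  · intro z z'
    by_cases h : z ∈ Z1
    · by_cases h' : z' ∈ Z2
      · simp only [h, h', dif_pos]
        exact h2 _ _ (by simp)
      · simp [h']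
    · simp [h]

end Pool.Agent.H159TP
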