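import Pool.Agent.H159TP.MinFam
import Pool.Agent.H159TP.Comb
import Pool.Agent.H159TP.Dom

/-!
Selecting a subfamily of a family of disjoint paths of minimal length.
-/

set_option autoImplicit false

namespace Pool.Agent.H159TP

open Finset Classical

section
variable {V : Type} {adj : V → V → Prop} {Tl Hd R : Finset V} {K : ℕ} {P : Fin K → List V}

/-- few elements of a list are near its end -/
theorem card_near_end (l : List V) (n : ℕ) (X : Finset V)
    (hX : ∀ x ∈ X, ∃ l1 l2, l = l1 ++ x :: l2 ∧ l2.length ≤ n) : X.card ≤ n + 1 := by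
  have h1 : X ⊆ (l.reverse.take (n + 1)).toFinset := by
    intro x hx
    obtain ⟨l1, l2, rfl, h2⟩ := hX x hx
    rw [List.mem_toFinset]
    have h3 : (l1 ++ x :: l2).reverse = (l2.reverse ++ [x]) ++ l1.reverse := by simp
    rw [h3, List.take_append, List.mem_append]
    left
    rw [List.take_of_length_le (by simp; omega)]
    simp
  refine (card_le_card h1).trans ((List.toFinset_card_le _).trans ?_)
  simp

/-- the vertex before the last one -/
theorem late_unique (hRH : Disjoint R Hd) {l : List V} (h : IsLink adj Tl Hd R l)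
    {x y : V} (hx : x ∈ R) (hy : y ∈ R) {l1 l2 l3 l4 : List V} (h1 : l = l1 ++ x :: l2)
    (h2 : l2.length ≤ 1) (h3 : l = l3 ++ y :: l4) (h4 : l4.length ≤ 1) : x = y := by
  obtain ⟨b, m, a, hs, hb, ha, hm⟩ := h.shape
  have key : ∀ (z : V) (l5 l6 : List V), z ∈ R → l = l5 ++ z :: l6 → l6.length ≤ 1 →
      b :: m = l5 ++ [z] := by
    intro z l5 l6 hz h5 h6
    rcases l6 with _ | ⟨c, l6⟩
    · exfalso
      have h7 : (b :: m) ++ [a] = l5 ++ [z] := by rw [← h5, hs]; simp
      have h8 := (List.append_inj' h7 rfl).2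
      simp only [List.cons.injEq, and_true] at h8
      exact disjoint_left.1 hRH hz (h8 ▸ ha)
    · have hl6 : l6 = [] := by
        rw [← List.length_eq_zero_iff]
        simp at h6
        simp [h6]
      subst hl6
      have h7 : (b :: m) ++ [a] = (l5 ++ [z]) ++ [c] := by
        rw [show (b :: m) ++ [a] = l by rw [hs]; simp, h5]; simp
      exact (List.append_inj' h7 rfl).1
  have e1 := key x l1 l2 hx h1 h2
  have e2 := key y l3 l4 hy h3 h4
  rw [e1] at e2
  have := (List.append_inj' e2 rfl).2
  simpa using this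

end

section
variable {V : Type} [Fintype V] {adj : V → V → Prop} {Tl Hd R : Finset V} {K : ℕ}
  {P : Fin K → List V}

/-- vertices of a path -/
noncomputable def pf (P : Fin K → List V) (i : Fin K) : Finset V := (P i).toFinset

omit [Fintype V] in
theorem mem_pf (i : Fin K) (v : V) : v ∈ pf P i ↔ v ∈ P i := by simp [pf]

omit [Fintype V] in
theorem pf_disj (h : IsFam adj Tl Hd R P) {i j : Fin K} (hij : i ≠ j) :
    Disjoint (pf P i) (pf P j) := by
  rw [disjoint_left]
  intro v hv hv'
  rw [mem_pf] at hv hv'
  exact h.disj i j hij hv hv'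

omit [Fintype V] in
/-- few members of a disjoint family contain a large part of `T` -/
theorem heavy_count {ι : Type} [Fintype ι] (F : ι → Finset V)
    (hF : ∀ i j, i ≠ j → Disjoint (F i) (F j)) (T : Finset V) (n : ℕ) :
    (univ.filter (fun j => T.card < n * (T ∩ F j).card)).card ≤ n := by
  by_contra hlt
  push Not at hlt
  set J := univ.filter (fun j => T.card < n * (T ∩ F j).card) with hJ
  have h1 : ∑ j ∈ J, (T ∩ F j).card ≤ T.card := by
    rw [← card_biUnion]
    · exact card_le_card (biUnion_subset.2 fun j _ => inter_subset_left)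
    · intro i _ j _ hij
      exact (hF i j hij).mono inter_subset_right inter_subset_right
  have h2 : ∑ j ∈ J, (T.card + 1) ≤ ∑ j ∈ J, n * (T ∩ F j).card :=
    sum_le_sum fun j hj => (mem_filter.1 hj).2
  rw [← mul_sum, sum_const, smul_eq_mul] at h2
  have h3 : n * ∑ j ∈ J, (T ∩ F j).card ≤ n * T.card := Nat.mul_le_mul_left _ h1
  have h4 : (n + 1) * (T.card + 1) ≤ J.card * (T.card + 1) := Nat.mul_le_mul_right _ hlt
  nlinarith

omit [Fintype V] in
theorem light_sum {ι : Type} (F : ι → Finset V) (T : Finset V) (I : Finset ι) (n m : ℕ)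
    (hI : I.card ≤ m) (h : ∀ j ∈ I, n * (T ∩ F j).card ≤ T.card) :
    n * (T ∩ I.biUnion F).card ≤ m * T.card := by
  have h1 : (T ∩ I.biUnion F).card ≤ ∑ j ∈ I, (T ∩ F j).card := by
    refine le_trans (card_le_card ?_) card_biUnion_le
    intro v hv
    rw [mem_inter, mem_biUnion] at hv
    obtain ⟨hv1, j, hj, hv2⟩ := hv
    exact mem_biUnion.2 ⟨j, hj, mem_inter.2 ⟨hv1, hv2⟩⟩
  calc n * (T ∩ I.biUnion F).card ≤ n * ∑ j ∈ I, (T ∩ F j).card := Nat.mul_le_mul_left _ h1
    _ = ∑ j ∈ I, n * (T ∩ F j).card := mul_sum _ _ _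
    _ ≤ ∑ j ∈ I, T.card := sum_le_sum h
    _ = I.card * T.card := by rw [sum_const, smul_eq_mul]
    _ ≤ m * T.card := Nat.mul_le_mul_right _ hI

/-- `v` has an unused head as an out-neighbour -/
def CrI (adj : V → V → Prop) (Hd : Finset V) (P : Fin K → List V) (v : V) : Prop :=
  ∃ u ∈ Hd, (∀ j, u ∉ P j) ∧ adj v u

/-- `v` has an unused tail as an in-neighbour -/
def CrO (adj : V → V → Prop) (Tl : Finset V) (P : Fin K → List V) (v : V) : Prop :=
  ∃ w ∈ Tl, (∀ j, w ∉ P j) ∧ adj w v

theorem select (h : IsMin adj Tl Hd R P) (hRH : Disjoint R Hd) (hRT : Disjoint R Tl) (q : ℕ)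
    (hq : 0 < q) (hK : q + q * (8 * q) + q * (16 * q + 1) ≤ K)
    (hin : ∀ v, 6 * q < (inn adj v).card) (hout : ∀ v, 6 * q < (out adj v).card) :
    ∃ I : Finset (Fin K), I.card = q ∧
      (∀ v ∈ R, ∀ i, v ∈ P i → CrI adj Hd P v →
        (inn adj v).card < 2 * (inn adj v ∩ I.biUnion (pf P)).card →
        ¬ CrO adj Tl P v ∧ (i ∈ I → (inn adj v).card ≤ 4 * (inn adj v ∩ pf P i).card)) ∧
      (∀ v ∈ R, ∀ i, v ∈ P i → CrO adj Tl P v →
        (out adj v).card < 2 * (out adj v ∩ I.biUnion (pf P)).card →
        ¬ CrI adj Hd P v ∧ (i ∈ I → (out adj v).card ≤ 4 * (out adj v ∩ pf P i).card)) := by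
  set Sh : Finset (Fin K) := univ.filter (fun i => (P i).length ≤ 3) with hSh
  by_cases hcase : q ≤ Sh.card
  · -- many short paths
    obtain ⟨I, hI, hIc⟩ := exists_subset_card_eq hcase
    have h1 : (I.biUnion (pf P)).card ≤ 3 * q := by
      refine card_biUnion_le.trans ?_
      calc ∑ i ∈ I, (pf P i).card ≤ ∑ i ∈ I, 3 := sum_le_sum fun i hi =>
            (List.toFinset_card_le _).trans (mem_filter.1 (hI hi)).2
        _ = 3 * q := by rw [sum_const, smul_eq_mul, hIc, mul_comm]
    refine ⟨I, hIc, ?_, ?_⟩
    · intro v _ i _ _ hlt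
      have h2 := card_le_card (inter_subset_right (s₁ := inn adj v) (s₂ := I.biUnion (pf P)))
      have h3 := hin v
      omega
    · intro v _ i _ _ hlt
      have h2 := card_le_card (inter_subset_right (s₁ := out adj v) (s₂ := I.biUnion (pf P)))
      have h3 := hout v
      omega
  · push Not at hcase
    -- near the end, near the beginning
    set late : Fin K → V → Prop := fun i v => ∃ l1 l2, P i = l1 ++ v :: l2 ∧ l2.length ≤ 1 with hlate
    set early : Fin K → V → Prop := fun i v => ∃ l1 l2, P i = l1 ++ v :: l2 ∧ l1.length ≤ 1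
      with hearly
    have hlateI : ∀ i v, v ∈ P i → CrI adj Hd P v → late i v := by
      rintro i v hv ⟨u, hu, hun, hvu⟩
      obtain ⟨l1, l2, hl⟩ := List.append_of_mem hv
      exact ⟨l1, l2, hl, h.late hu hun hl hvu⟩
    have hearlyO : ∀ i v, v ∈ P i → CrO adj Tl P v → early i v := by
      rintro i v hv ⟨w, hw, hwn, hwv⟩
      obtain ⟨l1, l2, hl⟩ := List.append_of_mem hv
      exact ⟨l1, l2, hl, h.early hw hwn hl hwv⟩
    have hshort : ∀ i v, v ∈ P i → CrI adj Hd P v → CrO adj Tl P v → i ∈ Sh := by
      rintro i v hv ⟨u, hu, hun, hvu⟩ ⟨w, hw, hwn, hwv⟩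
      obtain ⟨l1, l2, hl⟩ := List.append_of_mem hv
      have h1 := h.late hu hun hl hvu
      have h2 := h.early hw hwn hl hwv
      rw [hSh, mem_filter]
      refine ⟨mem_univ _, ?_⟩
      rw [hl]
      simp
      omega
    have hlu : ∀ i v v', v ∈ R → v' ∈ R → late i v → late i v' → v = v' := by
      rintro i v v' hv hv' ⟨l1, l2, h1, h2⟩ ⟨l3, l4, h3, h4⟩
      exact late_unique hRH (h.fam.link i) hv hv' h1 h2 h3 h4
    have heu : ∀ i v v', v ∈ R → v' ∈ R → early i v → early i v' → v = v' := by
      rintro i v v' hv hv' ⟨l1, l2, h1, h2⟩ ⟨l3, l4, h3, h4⟩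
      exact late_unique hRT (h.fam.link i).reverse hv hv' (l1 := l2.reverse) (l2 := l1.reverse)
        (l3 := l4.reverse) (l4 := l3.reverse) (by rw [h1]; simp) (by simpa using h2)
        (by rw [h3]; simp) (by simpa using h4)
    obtain ⟨r, hr⟩ : ∃ r : Fin K → Fin K → Prop, ∀ i j, r i j ↔
      ((∃ v ∈ R, late i v ∧ (inn adj v).card < 4 * q * (inn adj v ∩ pf P j).card) ∨
      (∃ v ∈ R, early i v ∧ (out adj v).card < 4 * q * (out adj v ∩ pf P j).card)) :=
      ⟨_, fun _ _ => Iff.rfl⟩
    have hpd : ∀ i j, i ≠ j → Disjoint (pf P i) (pf P j) := fun i j hij => pf_disj h.fam hij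
    have hdeg : ∀ i, (univ.filter (r i)).card ≤ 8 * q := by
      intro i
      have h1 : (univ.filter (fun j => ∃ v ∈ R, late i v ∧
          (inn adj v).card < 4 * q * (inn adj v ∩ pf P j).card)).card ≤ 4 * q := by
        by_cases hex : ∃ v ∈ R, late i v
        · obtain ⟨v, hv, hlv⟩ := hex
          refine le_trans (card_le_card ?_) (heavy_count (pf P) hpd (inn adj v) (4 * q))
          intro j hj
          obtain ⟨_, v', hv', hlv', hlt⟩ := mem_filter.1 hj
          rw [hlu i v v' hv hv' hlv hlv']
          exact mem_filter.2 ⟨mem_univ _, hlt⟩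
        · have : (univ.filter (fun j => ∃ v ∈ R, late i v ∧
            (inn adj v).card < 4 * q * (inn adj v ∩ pf P j).card)) = ∅ := by
            rw [filter_eq_empty_iff]
            rintro j _ ⟨v, hv, hlv, _⟩
            exact hex ⟨v, hv, hlv⟩
          rw [this]
          simp
      have h2 : (univ.filter (fun j => ∃ v ∈ R, early i v ∧
          (out adj v).card < 4 * q * (out adj v ∩ pf P j).card)).card ≤ 4 * q := by
        by_cases hex : ∃ v ∈ R, early i v
        · obtain ⟨v, hv, hlv⟩ := hex
          refine le_trans (card_le_card ?_) (heavy_count (pf P) hpd (out adj v) (4 * q))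
          intro j hj
          obtain ⟨_, v', hv', hlv', hlt⟩ := mem_filter.1 hj
          rw [heu i v v' hv hv' hlv hlv']
          exact mem_filter.2 ⟨mem_univ _, hlt⟩
        · have : (univ.filter (fun j => ∃ v ∈ R, early i v ∧
            (out adj v).card < 4 * q * (out adj v ∩ pf P j).card)) = ∅ := by
            rw [filter_eq_empty_iff]
            rintro j _ ⟨v, hv, hlv, _⟩
            exact hex ⟨v, hv, hlv⟩
          rw [this]
          simp
      have h3 : univ.filter (r i) = (univ.filter (fun j => ∃ v ∈ R, late i v ∧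
          (inn adj v).card < 4 * q * (inn adj v ∩ pf P j).card)) ∪
          (univ.filter (fun j => ∃ v ∈ R, early i v ∧
          (out adj v).card < 4 * q * (out adj v ∩ pf P j).card)) := by
        ext j
        simp only [mem_filter, mem_univ, true_and, mem_union, hr]
      rw [h3]
      refine (card_union_le _ _).trans ?_
      omega
    set S0 : Finset (Fin K) := univ \ (Sh ∪ Sh.biUnion (fun i => univ.filter (r i))) with hS0
    have hS0c : q * (2 * (8 * q) + 1) ≤ S0.card := by
      have h1 : (Sh ∪ Sh.biUnion (fun i => univ.filter (r i))).card ≤ q + q * (8 * q) := by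
        refine (card_union_le _ _).trans ?_
        have h2 : (Sh.biUnion (fun i => univ.filter (r i))).card ≤ Sh.card * (8 * q) := by
          refine card_biUnion_le.trans ?_
          calc ∑ i ∈ Sh, (univ.filter (r i)).card ≤ ∑ i ∈ Sh, 8 * q :=
                sum_le_sum fun i _ => hdeg i
            _ = Sh.card * (8 * q) := by rw [sum_const, smul_eq_mul]
        have h3 : Sh.card * (8 * q) ≤ q * (8 * q) := Nat.mul_le_mul_right _ hcase.le
        omega
      have h4 := le_card_sdiff (Sh ∪ Sh.biUnion (fun i => univ.filter (r i))) (univ : Finset (Fin K))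
      rw [← hS0, card_univ, Fintype.card_fin] at h4
      have h5 : q * (2 * (8 * q) + 1) = q * (16 * q + 1) := by ring
      omega
    obtain ⟨I, hI, hIc, hind⟩ := exists_indep (8 * q) r q S0
      (fun i _ => (card_le_card (filter_subset_filter _ (subset_univ _))).trans (hdeg i)) hS0c
    have hshI : ∀ i ∈ Sh, ∀ j ∈ I, ¬ r i j := by
      intro i hi j hj hrij
      have := hI hj
      rw [hS0, mem_sdiff, mem_union, not_or] at this
      exact this.2.2 (mem_biUnion.2 ⟨i, hi, mem_filter.2 ⟨mem_univ _, hrij⟩⟩)
    refine ⟨I, hIc, ?_, ?_⟩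
    · intro v hvR i hvi hcr hlt
      have hl := hlateI i v hvi hcr
      have hpos := hin v
      refine ⟨fun hcrO => ?_, fun hiI => ?_⟩
      · have hsh := hshort i v hvi hcr hcrO
        have h1 : ∀ j ∈ I, 4 * q * (inn adj v ∩ pf P j).card ≤ (inn adj v).card := by
          intro j hj
          by_contra hlt'
          push Not at hlt'
          exact hshI i hsh j hj ((hr _ _).2 (Or.inl ⟨v, hvR, hl, hlt'⟩))
        have h2 := light_sum (pf P) (inn adj v) I (4 * q) q hIc.le h1
        have h3 : q * (4 * (inn adj v ∩ I.biUnion (pf P)).card) ≤ q * (inn adj v).card := by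
          calc q * (4 * (inn adj v ∩ I.biUnion (pf P)).card) =
              4 * q * (inn adj v ∩ I.biUnion (pf P)).card := by ring
            _ ≤ _ := h2
        have h4 := Nat.le_of_mul_le_mul_left h3 hq
        omega
      · have h1 : ∀ j ∈ I.erase i, 4 * q * (inn adj v ∩ pf P j).card ≤ (inn adj v).card := by
          intro j hj
          by_contra hlt'
          push Not at hlt'
          exact hind i hiI j (mem_of_mem_erase hj) (ne_of_mem_erase hj).symm
            ((hr _ _).2 (Or.inl ⟨v, hvR, hl, hlt'⟩))
        have h2 := light_sum (pf P) (inn adj v) (I.erase i) (4 * q) q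
          ((card_le_card (erase_subset _ _)).trans hIc.le) h1
        have h3 : q * (4 * (inn adj v ∩ (I.erase i).biUnion (pf P)).card) ≤
            q * (inn adj v).card := by
          calc q * (4 * (inn adj v ∩ (I.erase i).biUnion (pf P)).card) =
              4 * q * (inn adj v ∩ (I.erase i).biUnion (pf P)).card := by ring
            _ ≤ _ := h2
        have h4 := Nat.le_of_mul_le_mul_left h3 hq
        have h5 : (inn adj v ∩ I.biUnion (pf P)).card ≤
            (inn adj v ∩ pf P i).card + (inn adj v ∩ (I.erase i).biUnion (pf P)).card := by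
          refine le_trans (card_le_card ?_) (card_union_le _ _)
          intro x hx
          rw [mem_inter, mem_biUnion] at hx
          obtain ⟨hx1, j, hj, hx2⟩ := hx
          by_cases hji : j = i
          · subst hji
            exact mem_union_left _ (mem_inter.2 ⟨hx1, hx2⟩)
          · exact mem_union_right _ (mem_inter.2 ⟨hx1, mem_biUnion.2
              ⟨j, mem_erase.2 ⟨hji, hj⟩, hx2⟩⟩)
        omega
    · intro v hvR i hvi hcr hlt
      have hl := hearlyO i v hvi hcr
      have hpos := hout v
      refine ⟨fun hcrI => ?_, fun hiI => ?_⟩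
      · have hsh := hshort i v hvi hcrI hcr
        have h1 : ∀ j ∈ I, 4 * q * (out adj v ∩ pf P j).card ≤ (out adj v).card := by
          intro j hj
          by_contra hlt'
          push Not at hlt'
          exact hshI i hsh j hj ((hr _ _).2 (Or.inr ⟨v, hvR, hl, hlt'⟩))
        have h2 := light_sum (pf P) (out adj v) I (4 * q) q hIc.le h1
        have h3 : q * (4 * (out adj v ∩ I.biUnion (pf P)).card) ≤ q * (out adj v).card := by
          calc q * (4 * (out adj v ∩ I.biUnion (pf P)).card) =
              4 * q * (out adj v ∩ I.biUnion (pf P)).card := by ring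
            _ ≤ _ := h2
        have h4 := Nat.le_of_mul_le_mul_left h3 hq
        omega
      · have h1 : ∀ j ∈ I.erase i, 4 * q * (out adj v ∩ pf P j).card ≤ (out adj v).card := by
          intro j hj
          by_contra hlt'
          push Not at hlt'
          exact hind i hiI j (mem_of_mem_erase hj) (ne_of_mem_erase hj).symm
            ((hr _ _).2 (Or.inr ⟨v, hvR, hl, hlt'⟩))
        have h2 := light_sum (pf P) (out adj v) (I.erase i) (4 * q) q
          ((card_le_card (erase_subset _ _)).trans hIc.le) h1
        have h3 : q * (4 * (out adj v ∩ (I.erase i).biUnion (pf P)).card) ≤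
            q * (out adj v).card := by
          calc q * (4 * (out adj v ∩ (I.erase i).biUnion (pf P)).card) =
              4 * q * (out adj v ∩ (I.erase i).biUnion (pf P)).card := by ring
            _ ≤ _ := h2
        have h4 := Nat.le_of_mul_le_mul_left h3 hq
        have h5 : (out adj v ∩ I.biUnion (pf P)).card ≤
            (out adj v ∩ pf P i).card + (out adj v ∩ (I.erase i).biUnion (pf P)).card := by
          refine le_trans (card_le_card ?_) (card_union_le _ _)
          intro x hx
          rw [mem_inter, mem_biUnion] at hx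
          obtain ⟨hx1, j, hj, hx2⟩ := hx
          by_cases hji : j = i
          · subst hji
            exact mem_union_left _ (mem_inter.2 ⟨hx1, hx2⟩)
          · exact mem_union_right _ (mem_inter.2 ⟨hx1, mem_biUnion.2
              ⟨j, mem_erase.2 ⟨hji, hj⟩, hx2⟩⟩)
        omega

end

end Pool.Agent.H159TP
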