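import Pool.Agent.H159TP.Dom

/-!
The dominating structures.
-/

set_option autoImplicit false

namespace Pool.Agent.H159TP

open Finset Classical

/-- Disjoint units `AA u` (`u ∈ Hd`) and `BB w` (`w ∈ Tl`) inside `Z`; the vertices outside `Z` and
`E1` are dominated by all `AA u`, those outside `Z` and `E2` dominate into all `BB w`. -/
structure Core {V : Type} (adj : V → V → Prop) (X0 Z Hd Tl E1 E2 : Finset V)
    (AA BB : V → Finset V) : Prop where
  X0Z : X0 ⊆ Z
  AAZ : ∀ u ∈ Hd, AA u ⊆ Z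
  BBZ : ∀ w ∈ Tl, BB w ⊆ Z
  AAX : ∀ u ∈ Hd, Disjoint (AA u) X0
  BBX : ∀ w ∈ Tl, Disjoint (BB w) X0
  AAm : ∀ u ∈ Hd, u ∈ AA u
  BBm : ∀ w ∈ Tl, w ∈ BB w
  AAh : ∀ u ∈ Hd, ∀ a ∈ AA u, a ≠ u → adj u a
  BBh : ∀ w ∈ Tl, ∀ b ∈ BB w, b ≠ w → adj b w
  AAd : ∀ u ∈ Hd, ∀ u' ∈ Hd, u ≠ u' → Disjoint (AA u) (AA u')
  BBd : ∀ w ∈ Tl, ∀ w' ∈ Tl, w ≠ w' → Disjoint (BB w) (BB w')
  ABd : ∀ u ∈ Hd, ∀ w ∈ Tl, Disjoint (AA u) (BB w)
  E1d : ∀ v, v ∉ Z → v ∉ E1 → ∀ u ∈ Hd, ∃ a ∈ AA u, adj a v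
  E2d : ∀ v, v ∉ Z → v ∉ E2 → ∀ w ∈ Tl, ∃ b ∈ BB w, adj v b

theorem Core.op {V : Type} {adj : V → V → Prop} {X0 Z Hd Tl E1 E2 : Finset V}
    {AA BB : V → Finset V} (h : Core adj X0 Z Hd Tl E1 E2 AA BB) :
    Core (fun u v => adj v u) X0 Z Tl Hd E2 E1 BB AA where
  X0Z := h.X0Z
  AAZ := h.BBZ
  BBZ := h.AAZ
  AAX := h.BBX
  BBX := h.AAX
  AAm := h.BBm
  BBm := h.AAm
  AAh := h.BBh
  BBh := h.AAh
  AAd := h.BBd
  BBd := h.AAd
  ABd := fun u hu w hw => (h.ABd w hw u hu).symm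
  E1d := h.E2d
  E2d := h.E1d

section
variable {V : Type} [Fintype V] {adj : V → V → Prop}

/-- One direction of the construction. -/
theorem stage_one (h : IsTournament adj) (S F : Finset V) (c N : ℕ) (hSF : S ⊆ F)
    (hN : ∀ v, N ≤ (inn adj v).card) (hF : F.card + S.card * (c + 1) < N)
    (hlow : ∀ s ∈ S, ∀ v, v ∉ F → (inn adj s).card ≤ (inn adj v).card) :
    ∃ (A : V → Finset V) (Hd : Finset V) (AA : V → Finset V) (D : ℕ),
      (∀ s ∈ S, Disjoint (A s) F) ∧ (S.biUnion A).card ≤ S.card * (c + 1) ∧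
      Hd.card = S.card ∧ (∀ u ∈ Hd, u ∈ S.biUnion A) ∧
      (∀ u ∈ Hd, u ∈ AA u ∧ AA u ⊆ S ∪ S.biUnion A ∧ ∀ a ∈ AA u, a ≠ u → adj u a) ∧
      (∀ u ∈ Hd, ∀ u' ∈ Hd, u ≠ u' → Disjoint (AA u) (AA u')) ∧
      N ≤ D ∧ (∀ v, v ∉ F → D ≤ (inn adj v).card) ∧
      ∀ Z : Finset V, F ∪ S.biUnion A ⊆ Z → ∃ E : Finset V, 2 ^ c * E.card ≤ S.card * D ∧
        ∀ v, v ∉ Z → v ∉ E → ∀ u ∈ Hd, ∃ a ∈ AA u, adj a v := by
  obtain ⟨A, hd, h1, h2, h3, h4, h5⟩ := exists_doms h c S F (fun v => hF.trans_le (hN v))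
  have hinj : Set.InjOn hd (S : Set V) := by
    intro s hs s' hs' he
    by_contra hne
    have := disjoint_left.1 (h2 s hs s' hs' hne) (h4 s hs).1
    exact this (he ▸ (h4 s' hs').1)
  obtain ⟨σ, hσ⟩ : ∃ σ : V → V, ∀ u ∈ S.image hd, σ u ∈ S ∧ hd (σ u) = u := by
    have : ∀ u, ∃ s, u ∈ S.image hd → s ∈ S ∧ hd s = u := by
      intro u
      by_cases hu : u ∈ S.image hd
      · obtain ⟨s, hs, he⟩ := mem_image.1 hu
        exact ⟨s, fun _ => ⟨hs, he⟩⟩
      · exact ⟨u, fun hu' => absurd hu' hu⟩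
    choose σ hσ using this
    exact ⟨σ, hσ⟩
  refine ⟨A, S.image hd, fun u => insert (σ u) (A (σ u)), max N (S.sup fun s => (inn adj s).card),
    h1, ?_, card_image_of_injOn hinj, ?_, ?_, ?_, le_max_left _ _, ?_, ?_⟩
  · refine card_biUnion_le.trans ?_
    rw [← smul_eq_mul, ← sum_const]
    exact sum_le_sum h3
  · intro u hu
    obtain ⟨s, hs, rfl⟩ := mem_image.1 hu
    exact mem_biUnion.2 ⟨s, hs, (h4 s hs).1⟩
  · intro u hu
    obtain ⟨hs, he⟩ := hσ u hu
    refine ⟨?_, ?_, ?_⟩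
    · have := (h4 _ hs).1
      rw [he] at this
      exact mem_insert_of_mem this
    · intro a ha
      rcases mem_insert.1 ha with rfl | ha
      · exact mem_union_left _ hs
      · exact mem_union_right _ (mem_biUnion.2 ⟨_, hs, ha⟩)
    · intro a ha hne
      rcases mem_insert.1 ha with rfl | ha
      · have := (h4 _ hs).2.1
        rwa [he] at this
      · have := (h4 _ hs).2.2 a ha
        rw [he] at this
        exact this hne
  · intro u hu u' hu' hne
    obtain ⟨hs, he⟩ := hσ u hu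
    obtain ⟨hs', he'⟩ := hσ u' hu'
    have hne' : σ u ≠ σ u' := by
      intro hh
      apply hne
      rw [← he, ← he', hh]
    rw [disjoint_left]
    intro a ha ha'
    rcases mem_insert.1 ha with h6 | h6
    · rcases mem_insert.1 ha' with h7 | h7
      · exact hne' (h6.symm.trans h7)
      · exact disjoint_left.1 (h1 _ hs') h7 (hSF (h6 ▸ hs))
    · rcases mem_insert.1 ha' with h7 | h7
      · exact disjoint_left.1 (h1 _ hs) h6 (hSF (h7 ▸ hs'))
      · exact disjoint_left.1 (h2 _ hs _ hs' hne') h6 h7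
  · intro v hv
    refine max_le (hN v) (Finset.sup_le fun s hs => hlow s hs v hv)
  · intro Z hZ
    refine ⟨S.biUnion (fun s => univ.filter (fun v => v ∉ Z ∧ adj v s ∧ ∀ a ∈ A s, adj v a)),
      ?_, ?_⟩
    · calc 2 ^ c * (S.biUnion (fun s => univ.filter (fun v => v ∉ Z ∧ adj v s ∧
            ∀ a ∈ A s, adj v a))).card ≤ 2 ^ c * ∑ s ∈ S, (univ.filter (fun v => v ∉ Z ∧ adj v s ∧
            ∀ a ∈ A s, adj v a)).card := Nat.mul_le_mul_left _ card_biUnion_le
        _ = ∑ s ∈ S, 2 ^ c * (univ.filter (fun v => v ∉ Z ∧ adj v s ∧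
            ∀ a ∈ A s, adj v a)).card := mul_sum _ _ _
        _ ≤ ∑ s ∈ S, max N (S.sup fun s => (inn adj s).card) := by
            refine sum_le_sum fun s hs => ?_
            refine (h5 s hs _ fun v hv => ?_).trans ((le_sup (f := fun s => (inn adj s).card)
              hs).trans (le_max_right _ _))
            obtain ⟨_, k1, k2, k3⟩ := mem_filter.1 hv
            refine ⟨fun hvF => k1 (hZ (mem_union_left _ hvF)), fun s' hs' hvA => k1 (hZ
              (mem_union_right _ (mem_biUnion.2 ⟨s', hs', hvA⟩))), k2, k3⟩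
        _ = S.card * max N (S.sup fun s => (inn adj s).card) := by rw [sum_const, smul_eq_mul]
    · intro v hvZ hvE u hu
      obtain ⟨hs, he⟩ := hσ u hu
      by_contra hno
      push Not at hno
      apply hvE
      rw [mem_biUnion]
      refine ⟨σ u, hs, mem_filter.2 ⟨mem_univ _, hvZ, ?_, ?_⟩⟩
      · have hne : v ≠ σ u := by
          rintro rfl
          exact hvZ (hZ (mem_union_left _ (hSF hs)))
        rcases h.total v (σ u) hne with h6 | h6
        · exact h6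
        · exact absurd h6 (hno _ (mem_insert_self _ _))
      · intro a ha
        have hne : v ≠ a := by
          rintro rfl
          exact hvZ (hZ (mem_union_right _ (mem_biUnion.2 ⟨_, hs, ha⟩)))
        rcases h.total v a hne with h6 | h6
        · exact h6
        · exact absurd h6 (hno _ (mem_insert_of_mem ha))

theorem stage1 (h : IsTournament adj) (X0 : Finset V) (M c N : ℕ)
    (hN : ∀ v, N ≤ (inn adj v).card) (hN' : ∀ v, N ≤ (out adj v).card)
    (hsize : X0.card + 2 * M + 2 * (M * (c + 1)) < N) (hV : X0.card + 2 * M ≤ Fintype.card V) :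
    ∃ (Z Hd Tl E1 E2 : Finset V) (AA BB : V → Finset V) (D₁ D₂ : ℕ),
      Core adj X0 Z Hd Tl E1 E2 AA BB ∧ Hd.card = M ∧ Tl.card = M ∧
      Z.card ≤ X0.card + 2 * M + 2 * (M * (c + 1)) ∧ N ≤ D₁ ∧ N ≤ D₂ ∧
      (∀ v, v ∉ Z ∨ v ∈ Hd → D₁ ≤ (inn adj v).card) ∧
      (∀ v, v ∉ Z ∨ v ∈ Tl → D₂ ≤ (out adj v).card) ∧
      2 ^ c * E1.card ≤ M * D₁ ∧ 2 ^ c * E2.card ≤ M * D₂ := by
  obtain ⟨S, hS, hSc, hSl⟩ := exists_lowest (fun v => (inn adj v).card) (univ \ X0) M (by
    rw [card_sdiff_of_subset (subset_univ _), card_univ]; omega)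
  obtain ⟨S', hS', hSc', hSl'⟩ := exists_lowest (fun v => (out adj v).card) (univ \ (X0 ∪ S)) M (by
    have h1 := card_union_le X0 S
    rw [card_sdiff_of_subset (subset_univ _), card_univ]; omega)
  set F := X0 ∪ S ∪ S' with hF
  have hFc : F.card ≤ X0.card + 2 * M := by
    have h1 := card_union_le X0 S
    have h2 := card_union_le (X0 ∪ S) S'
    rw [← hF] at h2
    omega
  have hSF : S ⊆ F := subset_union_left.trans' subset_union_right
  have hS'F : S' ⊆ F := subset_union_right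
  have hX0F : X0 ⊆ F := subset_union_left.trans' subset_union_left
  obtain ⟨A, Hd, AA, D₁, a1, a2, a3, a4, a5, a6, a7, a8, a9⟩ := stage_one h S F c N hSF hN
    (by rw [hSc]; omega) (fun s hs v hv => hSl s hs v (by
      rw [mem_sdiff, mem_sdiff]
      exact ⟨⟨mem_univ _, fun hh => hv (hX0F hh)⟩, fun hh => hv (hSF hh)⟩))
  set F' := F ∪ S.biUnion A with hF'
  have hF'c : F'.card ≤ X0.card + 2 * M + M * (c + 1) := by
    have h1 := card_union_le F (S.biUnion A)
    rw [← hF'] at h1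
    rw [hSc] at a2
    omega
  obtain ⟨B, Tl, BB, D₂, b1, b2, b3, b4, b5, b6, b7, b8, b9⟩ := stage_one h.op S' F' c N
    (hS'F.trans subset_union_left) hN' (by rw [hSc']; omega) (fun s hs v hv => hSl' s hs v (by
      rw [mem_sdiff, mem_sdiff, mem_union, not_or]
      exact ⟨⟨mem_univ _, fun hh => hv (mem_union_left _ (hX0F hh)),
        fun hh => hv (mem_union_left _ (hSF hh))⟩,
        fun hh => hv (mem_union_left _ (hS'F hh))⟩))
  set Z := F' ∪ S'.biUnion B with hZ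
  obtain ⟨E1, e1, e2⟩ := a9 Z subset_union_left
  obtain ⟨E2, e3, e4⟩ := b9 Z subset_rfl
  have hSX : Disjoint S X0 := by
    rw [disjoint_left]
    intro v hv hv'
    exact (mem_sdiff.1 (hS hv)).2 hv'
  have hS'XS : Disjoint S' (X0 ∪ S) := by
    rw [disjoint_left]
    intro v hv hv'
    exact (mem_sdiff.1 (hS' hv)).2 hv'
  refine ⟨Z, Hd, Tl, E1, E2, AA, BB, D₁, D₂, ⟨?_, ?_, ?_, ?_, ?_, ?_, ?_, ?_, ?_, a6, b6, ?_, e2,
    e4⟩, by rw [a3, hSc], by rw [b3, hSc'], ?_, a7, b7, ?_, ?_, by rwa [hSc] at e1,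
    by rwa [hSc'] at e3⟩
  · exact hX0F.trans (subset_union_left.trans subset_union_left)
  · intro u hu
    refine (a5 u hu).2.1.trans ?_
    refine union_subset (hSF.trans (subset_union_left.trans subset_union_left)) ?_
    exact subset_union_right.trans subset_union_left
  · intro w hw
    refine (b5 w hw).2.1.trans ?_
    refine union_subset (hS'F.trans (subset_union_left.trans subset_union_left)) ?_
    exact subset_union_right
  · intro u hu
    rw [disjoint_left]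
    intro a ha haX
    rcases mem_union.1 ((a5 u hu).2.1 ha) with h1 | h1
    · exact disjoint_left.1 hSX h1 haX
    · obtain ⟨s, hs, h2⟩ := mem_biUnion.1 h1
      exact disjoint_left.1 (a1 s hs) h2 (hX0F haX)
  · intro w hw
    rw [disjoint_left]
    intro a ha haX
    rcases mem_union.1 ((b5 w hw).2.1 ha) with h1 | h1
    · exact disjoint_left.1 hS'XS h1 (mem_union_left _ haX)
    · obtain ⟨s, hs, h2⟩ := mem_biUnion.1 h1
      exact disjoint_left.1 (b1 s hs) h2 (mem_union_left _ (hX0F haX))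
  · exact fun u hu => (a5 u hu).1
  · exact fun w hw => (b5 w hw).1
  · exact fun u hu => (a5 u hu).2.2
  · exact fun w hw => (b5 w hw).2.2
  · intro u hu w hw
    rw [disjoint_left]
    intro a ha ha'
    rcases mem_union.1 ((b5 w hw).2.1 ha') with h1 | h1
    · rcases mem_union.1 ((a5 u hu).2.1 ha) with h2 | h2
      · exact disjoint_left.1 hS'XS h1 (mem_union_right _ h2)
      · obtain ⟨s, hs, h3⟩ := mem_biUnion.1 h2
        exact disjoint_left.1 (a1 s hs) h3 (hS'F h1)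
    · obtain ⟨s, hs, h3⟩ := mem_biUnion.1 h1
      refine disjoint_left.1 (b1 s hs) h3 ?_
      rcases mem_union.1 ((a5 u hu).2.1 ha) with h2 | h2
      · exact mem_union_left _ (hSF h2)
      · exact mem_union_right _ h2
  · have h1 := card_union_le F' (S'.biUnion B)
    rw [← hZ] at h1
    rw [hSc'] at b2
    omega
  · intro v hv
    apply a8
    rcases hv with hv | hv
    · exact fun hh => hv (mem_union_left _ (mem_union_left _ hh))
    · obtain ⟨s, hs, h2⟩ := mem_biUnion.1 (a4 v hv)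
      exact disjoint_left.1 (a1 s hs) h2
  · intro v hv
    apply b8
    rcases hv with hv | hv
    · exact fun hh => hv (mem_union_left _ hh)
    · obtain ⟨s, hs, h2⟩ := mem_biUnion.1 (b4 v hv)
      exact disjoint_left.1 (b1 s hs) h2

end

end Pool.Agent.H159TP
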