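import Pool.Agent.H159TP.Half
import Pool.Agent.H159TP.Reserve
import Pool.Agent.H159TP.Stage1
import Pool.Agent.H159TP.Reach

/-!
The family of paths and its properties.
-/

set_option autoImplicit false

namespace Pool.Agent.H159TP

open Finset Classical

section
variable {V : Type} {adj : V → V → Prop} {Tl Hd R : Finset V} {K : ℕ} {P : Fin K → List V}

theorem chain_reach (S : V → Prop) : ∀ (l : List V) (b : V), (b :: l).IsChain adj →
    (∀ x ∈ b :: l, S x) → ∀ x ∈ b :: l,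
      Relation.ReflTransGen (fun x y => adj x y ∧ S x ∧ S y) b x := by
  intro l
  induction l with
  | nil =>
    intro b _ _ x hx
    rw [List.mem_singleton] at hx
    rw [hx]
  | cons c l ih =>
    intro b hc hS x hx
    rw [List.isChain_cons_cons] at hc
    rcases List.mem_cons.1 hx with rfl | hx
    · exact Relation.ReflTransGen.refl
    · exact Relation.ReflTransGen.head ⟨hc.1, hS b (by simp), hS c (by simp)⟩
        (ih c hc.2 (fun y hy => hS y (List.mem_cons_of_mem _ hy)) x hx)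

theorem ends (h : IsFam adj Tl Hd R P) (hRH : Disjoint R Hd) (hRT : Disjoint R Tl)
    (hTH : Disjoint Tl Hd) : ∃ a b : Fin K → V, ∀ j, a j ∈ Hd ∧ b j ∈ Tl ∧ a j ∈ pf P j ∧
      b j ∈ pf P j ∧ (∀ v ∈ pf P j, v ∈ Hd → v = a j) ∧ (∀ v ∈ pf P j, v ∈ Tl → v = b j) ∧
      (∀ v ∈ pf P j, v ∈ R ∨ v = a j ∨ v = b j) ∧
      Relation.ReflTransGen (fun x y => adj x y ∧ x ∈ pf P j ∧ y ∈ pf P j) (b j) (a j) := by
  have hsh := fun j => (h.link j).shape
  choose b m a hs hb ha hm using hsh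
  refine ⟨a, b, fun j => ?_⟩
  have hmem : ∀ v, v ∈ pf P j ↔ v = b j ∨ v ∈ m j ∨ v = a j := by
    intro v
    rw [mem_pf, hs j]
    simp
  refine ⟨ha j, hb j, (hmem _).2 (Or.inr (Or.inr rfl)), (hmem _).2 (Or.inl rfl), ?_, ?_, ?_, ?_⟩
  · intro v hv hvH
    rcases (hmem v).1 hv with h1 | h1 | h1
    · exact absurd hvH (disjoint_left.1 hTH (h1 ▸ hb j))
    · exact absurd hvH (disjoint_left.1 hRH (hm j v h1))
    · exact h1
  · intro v hv hvT
    rcases (hmem v).1 hv with h1 | h1 | h1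
    · exact h1
    · exact absurd hvT (disjoint_left.1 hRT (hm j v h1))
    · exact absurd (h1 ▸ ha j) (disjoint_left.1 hTH hvT)
  · intro v hv
    rcases (hmem v).1 hv with h1 | h1 | h1
    · exact Or.inr (Or.inr h1)
    · exact Or.inl (hm j v h1)
    · exact Or.inr (Or.inl h1)
  · have h1 := chain_reach (adj := adj) (fun x => x ∈ pf P j) (m j ++ [a j]) (b j)
      (by rw [← hs j]; exact (h.link j).chain)
      (fun x hx => by rw [← hs j] at hx; exact (mem_pf _ _).2 hx) (a j) (by simp)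
    exact h1

end

section
variable {V : Type} [Fintype V] {adj : V → V → Prop} {Z Tl Hd R E : Finset V} {K : ℕ}
  {P : Fin K → List V} {I : Finset (Fin K)} {q N D : ℕ}

omit [Fintype V] in
theorem cr_iff (v : V) : CrI adj Hd P v ↔ Cr adj Hd (pf P) v := by
  unfold CrI Cr
  simp only [mem_pf]

omit [Fintype V] in
theorem cro_iff (v : V) : CrO adj Tl P v ↔ Cr (fun u v => adj v u) Tl (pf P) v := by
  unfold CrO Cr
  simp only [mem_pf]

omit [Fintype V] in
theorem pf_reverse : pf (fun i => (P i).reverse) = pf P := by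
  funext i
  ext v
  simp [pf]

theorem half_of_min (h : IsTournament adj) (hm : IsMin adj Tl Hd R P) (hHZ : Hd ⊆ Z)
    (hTZ : Tl ⊆ Z) (hRZ : Disjoint R Z) (hTH : Disjoint Tl Hd) (hIc : I.card = q)
    (hS1 : ∀ v ∈ R, ∀ i, v ∈ P i → CrI adj Hd P v →
        (inn adj v).card < 2 * (inn adj v ∩ I.biUnion (pf P)).card →
        (i ∈ I → (inn adj v).card ≤ 4 * (inn adj v ∩ pf P i).card))
    (hdeg : ∀ v, v ∉ Z ∨ v ∈ Hd → D ≤ (inn adj v).card) (hND : N ≤ D)
    (hE : 16 * (q * E.card) ≤ D) : Half adj Z Hd R E (pf P) I q N D := by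
  have hRH : Disjoint R Hd := hRZ.mono_right hHZ
  have hRT : Disjoint R Tl := hRZ.mono_right hTZ
  obtain ⟨a, b, hab⟩ := ends hm.fam hRH hRT hTH
  refine ⟨h, hHZ, hRZ, hIc, fun i j hij => pf_disj hm.fam hij, ?_, ?_, ?_, ?_, ?_, hdeg, ?_, hND,
    hE⟩
  · intro i
    have h1 : pf P i ∩ Z ⊆ {a i, b i} := by
      intro v hv
      rw [mem_inter] at hv
      rcases (hab i).2.2.2.2.2.2.1 v hv.1 with h2 | h2 | h2
      · exact absurd hv.2 (disjoint_left.1 hRZ h2)
      · simp [h2]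
      · simp [h2]
    exact (card_le_card h1).trans card_le_two
  · intro u hu hun i
    refine card_near_end (P i) 1 _ fun x hx => ?_
    rw [mem_inter, mem_inn, mem_pf] at hx
    obtain ⟨l1, l2, hl⟩ := List.append_of_mem hx.2
    exact ⟨l1, l2, hl, hm.late hu (fun j hj => hun j ((mem_pf _ _).2 hj)) hl hx.1⟩
  · rintro v hv hvn ⟨u, hu, hun, hvu⟩ i
    refine card_near_end (P i) 2 _ fun x hx => ?_
    rw [mem_inter, mem_inn, mem_pf] at hx
    obtain ⟨l1, l2, hl⟩ := List.append_of_mem hx.2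
    exact ⟨l1, l2, hl, hm.late' hu (fun j hj => hun j ((mem_pf _ _).2 hj)) hv
      (fun j hj => hvn j ((mem_pf _ _).2 hj)) hvu hl hx.1⟩
  · have h1 : ∀ v, ∃ i : Option (Fin K), (v ∈ R ∧ (∃ i, v ∈ pf P i) ∧ Cr adj Hd (pf P) v) →
        ∃ j, i = some j ∧ v ∈ pf P j := by
      intro v
      by_cases hv : ∃ i, v ∈ pf P i
      · obtain ⟨i, hi⟩ := hv
        exact ⟨some i, fun _ => ⟨i, rfl, hi⟩⟩
      · exact ⟨none, fun hh => absurd hh.2.1 hv⟩
    choose f hf using h1
    have h2 : ((univ.filter (fun v => v ∈ R ∧ (∃ i, v ∈ pf P i) ∧ Cr adj Hd (pf P) v)).image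
        f).card = (univ.filter (fun v => v ∈ R ∧ (∃ i, v ∈ pf P i) ∧ Cr adj Hd (pf P) v)).card := by
      apply card_image_of_injOn
      intro v hv v' hv' he
      rw [mem_coe, mem_filter] at hv hv'
      obtain ⟨j, hj1, hj2⟩ := hf v hv.2
      obtain ⟨j', hj1', hj2'⟩ := hf v' hv'.2
      rw [hj1, hj1', Option.some.injEq] at he
      subst he
      rw [mem_pf] at hj2 hj2'
      obtain ⟨l1, l2, hl⟩ := List.append_of_mem hj2
      obtain ⟨l3, l4, hl'⟩ := List.append_of_mem hj2'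
      obtain ⟨u, hu, hun, hvu⟩ := (cr_iff v).2 hv.2.2.2
      obtain ⟨u', hu', hun', hvu'⟩ := (cr_iff v').2 hv'.2.2.2
      exact late_unique hRH (hm.fam.link j) hv.2.1 hv'.2.1 hl (hm.late hu hun hl hvu) hl'
        (hm.late hu' hun' hl' hvu')
    rw [← h2]
    have h3 : (univ.filter (fun v => v ∈ R ∧ (∃ i, v ∈ pf P i) ∧ Cr adj Hd (pf P) v)).image
        f ⊆ (univ : Finset (Fin K)).image some := by
      intro o ho
      obtain ⟨v, hv, rfl⟩ := mem_image.1 ho
      obtain ⟨j, hj1, _⟩ := hf v (mem_filter.1 hv).2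
      rw [hj1]
      exact mem_image_of_mem _ (mem_univ _)
    refine (card_le_card h3).trans (card_image_le.trans ?_)
    rw [card_univ, Fintype.card_fin]
  · intro v hv i hvi hc hlt hi
    exact hS1 v hv i ((mem_pf _ _).1 hvi) ((cr_iff v).2 hc) hlt hi
  · have h1 : Hd.filter (fun u => ∃ j, u ∈ pf P j) ⊆ univ.image a := by
      intro u hu
      obtain ⟨hu1, j, hu2⟩ := mem_filter.1 hu
      rw [(hab j).2.2.2.2.1 u hu2 hu1]
      exact mem_image_of_mem _ (mem_univ _)
    refine (card_le_card h1).trans (card_image_le.trans ?_)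
    rw [card_univ, Fintype.card_fin]

/-- minimal semidegrees -/
theorem deg_of_kstrong (h : ∀ v, ¬ adj v v) (hs : KStrong adj N univ) (v : V) :
    N ≤ (inn adj v).card := by
  by_contra hlt
  push Not at hlt
  obtain ⟨h1, h2⟩ := hs
  have h3 := h2 (inn adj v) (subset_univ _) hlt
  have hv : v ∈ univ \ inn adj v := by
    rw [mem_sdiff, mem_inn]
    exact ⟨mem_univ _, h v⟩
  obtain ⟨w, hw, hwv⟩ : ∃ w ∈ univ \ inn adj v, w ≠ v := by
    have h4 : 1 < (univ \ inn adj v).card := by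
      rw [card_sdiff_of_subset (subset_univ _)]
      omega
    obtain ⟨w, hw, hne⟩ := exists_mem_ne h4 v
    exact ⟨w, hw, hne⟩
  have h5 := h3 w hw v hv
  rcases Relation.ReflTransGen.cases_tail h5 with h6 | ⟨y, _, h7⟩
  · exact hwv h6.symm
  · have := h7.2.1
    rw [mem_sdiff, mem_inn] at this
    exact this.2 h7.1

omit [Fintype V] in
theorem KStrong.op {k : ℕ} {U : Finset V} (h : KStrong adj k U) :
    KStrong (fun u v => adj v u) k U := by
  refine ⟨h.1, fun X hX hXc u hu v hv => ?_⟩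
  have := rt_swap (h.2 X hX hXc v hv u hu)
  exact rt_mono (fun a b hab => ⟨hab.1, hab.2.2, hab.2.1⟩) this

end

end Pool.Agent.H159TP
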